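import Pool.Agent.R348.PO.Lem

/-!
# The largest representing measure: coefficients and the main inequality
-/

set_option linter.style.haveILetI false
set_option linter.unusedSectionVars false

open MeasureTheory Filter Topology

namespace Pool.Agent.R348.PO

open Classical

section big

variable {N A : Type} {R : N → A → Prop}

/-- `u_s = a_s - ∑_{n ∈ A_s} c_n` -/
noncomputable def uu (R : N → A → Prop) (z : VV N A) (s : A) : ℝ :=
  z.2.1 s - ∑' n, if R n s then z.1 n else 0

variable {z : VV N A} (hz : z ∈ XX R)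

include hz

lemma summable_c : Summable z.1 :=
  summable_of_sum_le hz.1 fun F => XX_c_le z hz F

lemma summable_ite (s : A) : Summable fun n => if R n s then z.1 n else 0 := by
  refine Summable.of_nonneg_of_le (fun n => ?_) (fun n => ?_) (summable_c hz)
  · split_ifs
    · exact hz.1 n
    · exact le_rfl
  · split_ifs
    · exact le_rfl
    · exact hz.1 n

lemma tendsto_U (s : A) : Tendsto (fun F => U R F z s) atTop (𝓝 (uu R z s)) :=
  (summable_ite hz s).hasSum.const_sub _

lemma abs_d_le (s : A) : |z.2.2 s| ≤ uu R z s :=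
  ge_of_tendsto (tendsto_U hz s) (Filter.Eventually.of_forall fun F => hz.2.1 F s)

lemma uu_nonneg (s : A) : 0 ≤ uu R z s := (abs_nonneg _).trans (abs_d_le hz s)

lemma tendsto_W (S : Finset A) : Tendsto (fun F => W R F S z) atTop
    (𝓝 (1 - ∑' n, z.1 n - ∑ s ∈ S, uu R z s)) :=
  ((summable_c hz).hasSum.const_sub _).sub (tendsto_finset_sum _ fun s _ => tendsto_U hz s)

variable (AD : ∀ s t : A, s ≠ t → {n : N | R n s ∧ R n t}.Finite)

include AD

lemma sum_uu_le (S : Finset A) : ∑ s ∈ S, uu R z s ≤ 1 - ∑' n, z.1 n := by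
  obtain ⟨F0, hF0⟩ := exists_ov AD S
  have : 0 ≤ 1 - ∑' n, z.1 n - ∑ s ∈ S, uu R z s := by
    refine ge_of_tendsto (tendsto_W hz S) ?_
    filter_upwards [eventually_ge_atTop F0] with F hF
    exact hz.2.2 F S (hF0.mono hF)
  linarith

lemma summable_uu : Summable (uu R z) :=
  summable_of_sum_le (uu_nonneg hz) fun S => sum_uu_le hz AD S

lemma tsum_uu_le : ∑' s, uu R z s ≤ 1 - ∑' n, z.1 n :=
  (summable_uu hz AD).tsum_le_of_sum_le fun S => sum_uu_le hz AD S

omit AD
lemma coef_nonneg (s : A) :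
    0 ≤ (uu R z s + z.2.2 s) / 2 ∧ 0 ≤ (uu R z s - z.2.2 s) / 2 := by
  have := abs_le.1 (abs_d_le hz s)
  constructor <;> linarith

lemma summable_cf (f : C(XX R, ℝ)) : Summable fun n => z.1 n * f (pn R n) := by
  refine Summable.of_norm_bounded ((summable_c hz).mul_right ‖f‖) fun n => ?_
  rw [norm_mul, Real.norm_of_nonneg (hz.1 n)]
  exact mul_le_mul_of_nonneg_left (f.norm_coe_le_norm _) (hz.1 n)

include AD

lemma summable_hf (f : C(XX R, ℝ)) : Summable fun s => (uu R z s + z.2.2 s) / 2 * f (pp R s) +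
    (uu R z s - z.2.2 s) / 2 * f (pm R s) := by
  refine Summable.of_norm_bounded ((summable_uu hz AD).mul_right ‖f‖) fun s => ?_
  have h := coef_nonneg hz s
  have b1 := f.norm_coe_le_norm (pp R s)
  have b2 := f.norm_coe_le_norm (pm R s)
  calc ‖(uu R z s + z.2.2 s) / 2 * f (pp R s) + (uu R z s - z.2.2 s) / 2 * f (pm R s)‖
      ≤ ‖(uu R z s + z.2.2 s) / 2 * f (pp R s)‖ + ‖(uu R z s - z.2.2 s) / 2 * f (pm R s)‖ :=
        norm_add_le _ _
    _ = (uu R z s + z.2.2 s) / 2 * ‖f (pp R s)‖ + (uu R z s - z.2.2 s) / 2 * ‖f (pm R s)‖ := by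
        rw [norm_mul, norm_mul, Real.norm_of_nonneg h.1, Real.norm_of_nonneg h.2]
    _ ≤ (uu R z s + z.2.2 s) / 2 * ‖f‖ + (uu R z s - z.2.2 s) / 2 * ‖f‖ := by
        have := mul_le_mul_of_nonneg_left b1 h.1
        have := mul_le_mul_of_nonneg_left b2 h.2
        linarith
    _ = uu R z s * ‖f‖ := by ring

/-- the functional `f ↦ ∑ z_y f(e_y)` -/
noncomputable def TT : C(XX R, ℝ) →ₗ[ℝ] ℝ where
  toFun f := ∑' n, z.1 n * f (pn R n) + ∑' s, ((uu R z s + z.2.2 s) / 2 * f (pp R s) +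
    (uu R z s - z.2.2 s) / 2 * f (pm R s)) + (1 - ∑' n, z.1 n - ∑' s, uu R z s) * f (p0 R)
  map_add' f g := by
    have h1 : ∑' n, z.1 n * (f + g) (pn R n) =
        ∑' n, z.1 n * f (pn R n) + ∑' n, z.1 n * g (pn R n) := by
      rw [← (summable_cf hz f).tsum_add (summable_cf hz g)]
      exact tsum_congr fun n => by rw [ContinuousMap.add_apply]; ring
    have h2 : ∑' s, ((uu R z s + z.2.2 s) / 2 * (f + g) (pp R s) +
        (uu R z s - z.2.2 s) / 2 * (f + g) (pm R s)) =
        ∑' s, ((uu R z s + z.2.2 s) / 2 * f (pp R s) + (uu R z s - z.2.2 s) / 2 * f (pm R s)) +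
        ∑' s, ((uu R z s + z.2.2 s) / 2 * g (pp R s) + (uu R z s - z.2.2 s) / 2 * g (pm R s)) := by
      rw [← (summable_hf hz AD f).tsum_add (summable_hf hz AD g)]
      exact tsum_congr fun n => by rw [ContinuousMap.add_apply, ContinuousMap.add_apply]; ring
    rw [h1, h2, ContinuousMap.add_apply]
    ring
  map_smul' c f := by
    have h1 : ∑' n, z.1 n * (c • f) (pn R n) = c * ∑' n, z.1 n * f (pn R n) := by
      rw [← tsum_mul_left]
      exact tsum_congr fun n => by rw [ContinuousMap.smul_apply, smul_eq_mul]; ring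
    have h2 : ∑' s, ((uu R z s + z.2.2 s) / 2 * (c • f) (pp R s) +
        (uu R z s - z.2.2 s) / 2 * (c • f) (pm R s)) =
        c * ∑' s, ((uu R z s + z.2.2 s) / 2 * f (pp R s) +
          (uu R z s - z.2.2 s) / 2 * f (pm R s)) := by
      rw [← tsum_mul_left]
      exact tsum_congr fun n => by
        rw [ContinuousMap.smul_apply, ContinuousMap.smul_apply, smul_eq_mul, smul_eq_mul]; ring
    rw [h1, h2, ContinuousMap.smul_apply, smul_eq_mul, RingHom.id_apply, smul_eq_mul]
    ring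

lemma TT_apply (f : C(XX R, ℝ)) : TT hz AD f = ∑' n, z.1 n * f (pn R n) +
    ∑' s, ((uu R z s + z.2.2 s) / 2 * f (pp R s) +
    (uu R z s - z.2.2 s) / 2 * f (pm R s)) + (1 - ∑' n, z.1 n - ∑' s, uu R z s) * f (p0 R) := rfl

lemma TT_nonneg (f : C(XX R, ℝ)) (hf : 0 ≤ f) : 0 ≤ TT hz AD f := by
  rw [TT_apply]
  have h := tsum_uu_le hz AD
  have hf' : ∀ x, 0 ≤ f x := hf
  have h1 : 0 ≤ ∑' n, z.1 n * f (pn R n) := tsum_nonneg fun n => mul_nonneg (hz.1 n) (hf' _)
  have h2 : 0 ≤ ∑' s, ((uu R z s + z.2.2 s) / 2 * f (pp R s) +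
      (uu R z s - z.2.2 s) / 2 * f (pm R s)) := tsum_nonneg fun s =>
    add_nonneg (mul_nonneg (coef_nonneg hz s).1 (hf' _)) (mul_nonneg (coef_nonneg hz s).2 (hf' _))
  have h3 : 0 ≤ (1 - ∑' n, z.1 n - ∑' s, uu R z s) * f (p0 R) :=
    mul_nonneg (by linarith) (hf' _)
  linarith

lemma TT_one : TT hz AD 1 = 1 := by
  rw [TT_apply]
  simp only [ContinuousMap.one_apply, mul_one]
  have : ∀ s, (uu R z s + z.2.2 s) / 2 + (uu R z s - z.2.2 s) / 2 = uu R z s := fun s => by ring
  simp only [this]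
  ring

/-- The main inequality. -/
lemma le_TT (Λ : C(XX R, ℝ) →ₗ[ℝ] ℝ) (hpos : ∀ f, 0 ≤ f → 0 ≤ Λ f) (h1 : Λ 1 = 1)
    (hrep : ∀ a : C(XX R, ℝ), IsAffineFn a → a ⟨z, hz⟩ = Λ a) (f : C(XX R, ℝ))
    (hf : IsConvexFn f) : Λ f ≤ TT hz AD f := by
  have hmono : ∀ f g, f ≤ g → Λ f ≤ Λ g := by
    intro f g hfg
    have := hpos (g - f) (sub_nonneg.2 hfg)
    rw [map_sub] at this
    linarith
  refine le_of_forall_pos_le_add fun ε' hε' => ?_
  set ε := ε' / 2 with hεdef
  have hε : 0 < ε := by positivity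
  obtain ⟨F0, S, hFS⟩ := fin_coord f ε hε
  obtain ⟨F1, hF1⟩ := exists_ov AD S
  -- step 1: for large `F`, `Λ f ≤ gF x + ε`
  have step1 : ∀ F, F0 ∪ F1 ≤ F → Λ f ≤ gF F S f z + ε := by
    intro F hF
    have hov : Ov R S F := hF1.mono (Finset.union_subset_right hF)
    let g : C(XX R, ℝ) := ⟨fun w => gF F S f w.1, (continuous_gF F S f).comp continuous_subtype_val⟩
    have hg : IsAffineFn g := by
      intro a b c t _ _ hc
      change gF F S f c.1 = t * gF F S f a.1 + (1 - t) * gF F S f b.1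
      rw [hc, gF_add _ _ _ _ _ _ _ (by ring)]
    have hle : f ≤ g + ε • (1 : C(XX R, ℝ)) := by
      intro w
      obtain ⟨hm, hw⟩ := app_spec F S hov w.1 w.2
      have e1 := hw f hf
      have e2 := hFS w ⟨_, hm⟩ (fun n hn => (app_c F S w.1 n
        (hF (Finset.mem_union_left _ hn))).symm) (fun s hs => ⟨(app_a F S w.1 s hs).symm,
          (app_d F S w.1 s hs).symm⟩)
      have e3 := (abs_le.1 e2).2
      have e4 : (g + ε • (1 : C(XX R, ℝ))) w = gF F S f w.1 + ε := by
        simp [g]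
      change f w ≤ (g + ε • (1 : C(XX R, ℝ))) w
      rw [e4]
      linarith
    have h2 := hmono _ _ hle
    rw [map_add, map_smul, h1, smul_eq_mul, mul_one, ← hrep g hg] at h2
    exact h2
  -- step 2: the limit
  set G := ∑' n, z.1 n * f (pn R n) + ∑ s ∈ S, ((uu R z s + z.2.2 s) / 2 * f (pp R s) +
    (uu R z s - z.2.2 s) / 2 * f (pm R s)) + (1 - ∑' n, z.1 n - ∑ s ∈ S, uu R z s) * f (p0 R)
    with hG
  have step2 : Tendsto (fun F => gF F S f z) atTop (𝓝 G) := by
    unfold gF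
    refine Tendsto.add (Tendsto.add (summable_cf hz f).hasSum ?_)
      ((tendsto_W hz S).mul_const _)
    refine tendsto_finset_sum _ fun s _ => ?_
    exact ((((tendsto_U hz s).add_const _).div_const 2).mul_const _).add
      ((((tendsto_U hz s).sub_const _).div_const 2).mul_const _)
  have step3 : Λ f ≤ G + ε := by
    refine ge_of_tendsto (step2.add_const ε) ?_
    filter_upwards [eventually_ge_atTop (F0 ∪ F1)] with F hF
    exact step1 F hF
  -- step 4: comparison of `G` and `TT`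
  have step4 : G ≤ TT hz AD f + ε := by
    set k : A → ℝ := fun s => (uu R z s + z.2.2 s) / 2 * (f (pp R s) - f (p0 R)) +
      (uu R z s - z.2.2 s) / 2 * (f (pm R s) - f (p0 R)) + ε * uu R z s with hk
    have hh := summable_hf hz AD f
    have hu := summable_uu hz AD
    have hke : ∀ s, k s = ((uu R z s + z.2.2 s) / 2 * f (pp R s) +
        (uu R z s - z.2.2 s) / 2 * f (pm R s)) + (ε - f (p0 R)) * uu R z s := by
      intro s
      rw [hk]
      ring
    have hks : Summable k := by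
      have : k = fun s => ((uu R z s + z.2.2 s) / 2 * f (pp R s) +
        (uu R z s - z.2.2 s) / 2 * f (pm R s)) + (ε - f (p0 R)) * uu R z s := funext hke
      rw [this]
      exact hh.add (hu.mul_left _)
    have hknn : ∀ s, s ∉ S → 0 ≤ k s := by
      intro s hs
      have c := coef_nonneg hz s
      have a1 : |f (pp R s) - f (p0 R)| ≤ ε := hFS _ _ (fun n _ => rfl) fun t ht => by
        have hts : t ≠ s := fun h => hs (h ▸ ht)
        simp [pp, p0, es, hts]
      have a2 : |f (pm R s) - f (p0 R)| ≤ ε := hFS _ _ (fun n _ => rfl) fun t ht => by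
        have hts : t ≠ s := fun h => hs (h ▸ ht)
        simp [pm, p0, es, hts]
      have b1 := mul_le_mul_of_nonneg_left (abs_le.1 a1).1 c.1
      have b2 := mul_le_mul_of_nonneg_left (abs_le.1 a2).1 c.2
      have : (uu R z s + z.2.2 s) / 2 * (-ε) + (uu R z s - z.2.2 s) / 2 * (-ε) +
        ε * uu R z s = 0 := by ring
      rw [hk]
      simp only
      linarith
    have h5 := hks.sum_le_tsum S fun s hs => hknn s hs
    have e1 : ∑ s ∈ S, k s = ∑ s ∈ S, ((uu R z s + z.2.2 s) / 2 * f (pp R s) +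
        (uu R z s - z.2.2 s) / 2 * f (pm R s)) + (ε - f (p0 R)) * ∑ s ∈ S, uu R z s := by
      simp only [hke, Finset.sum_add_distrib, ← Finset.mul_sum]
    have e2 : ∑' s, k s = ∑' s, ((uu R z s + z.2.2 s) / 2 * f (pp R s) +
        (uu R z s - z.2.2 s) / 2 * f (pm R s)) + (ε - f (p0 R)) * ∑' s, uu R z s := by
      simp only [hke]
      rw [hh.tsum_add (hu.mul_left _), tsum_mul_left]
    rw [e1, e2] at h5
    rw [TT_apply, hG]
    have h6 : 0 ≤ ∑ s ∈ S, uu R z s := Finset.sum_nonneg fun s _ => uu_nonneg hz s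
    have h7 := tsum_uu_le hz AD
    have h8 : 0 ≤ ∑' n, z.1 n := tsum_nonneg hz.1
    have h9 : ε * ∑' s, uu R z s ≤ ε * 1 := mul_le_mul_of_nonneg_left (by linarith) hε.le
    have h10 : 0 ≤ ε * ∑ s ∈ S, uu R z s := mul_nonneg hε.le h6
    nlinarith
  rw [hεdef] at step3 step4
  linarith

end big

end Pool.Agent.R348.PO
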