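import Mathlib

/-!
# Radon probabilities on a compact space, Choquet order, simplices, Baire class one

Everything is stated for a subset `X` of a real topological vector space `V`.
-/

set_option linter.style.haveILetI false
set_option linter.unusedSectionVars false

open MeasureTheory Filter Topology

namespace Pool.Agent.R348.PO

/-- Radon probability measures on a topological space `K`: regular probability measures on the Borel
`σ`-algebra of `K`. -/
structure M1 (K : Type) [TopologicalSpace K] where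
  /-- the measure, on the Borel `σ`-algebra -/
  μ : @Measure K (borel K)
  prob : @IsProbabilityMeasure K (borel K) μ
  reg : @Measure.Regular K (borel K) _ μ

variable {K : Type} [TopologicalSpace K]

/-- The integral of a real continuous function. -/
noncomputable def M1.int (m : M1 K) (f : C(K, ℝ)) : ℝ := @integral K ℝ _ _ (borel K) m.μ f

/-- The weak* topology on the Radon probabilities. -/
noncomputable instance : TopologicalSpace (M1 K) :=
  TopologicalSpace.induced (fun m (f : C(K, ℝ)) => m.int f) inferInstance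

lemma M1.continuous_int (f : C(K, ℝ)) : Continuous fun m : M1 K => m.int f := by
  have h : Continuous (fun (m : M1 K) (f : C(K, ℝ)) => m.int f) := continuous_induced_dom
  exact (continuous_apply f).comp h

section compact

variable [CompactSpace K]

lemma M1.integrable (m : M1 K) (f : C(K, ℝ)) :
    letI : MeasurableSpace K := borel K
    Integrable (fun x => f x) m.μ := by
  letI : MeasurableSpace K := borel K
  haveI : BorelSpace K := ⟨rfl⟩
  haveI := m.prob
  exact f.continuous.integrable_of_hasCompactSupport (HasCompactSupport.of_compactSpace f)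

lemma M1.int_add (m : M1 K) (f g : C(K, ℝ)) : m.int (f + g) = m.int f + m.int g := by
  letI : MeasurableSpace K := borel K
  exact integral_add (m.integrable f) (m.integrable g)

lemma M1.int_smul (m : M1 K) (c : ℝ) (f : C(K, ℝ)) : m.int (c • f) = c * m.int f := by
  letI : MeasurableSpace K := borel K
  exact integral_const_mul c f

lemma M1.int_nonneg (m : M1 K) (f : C(K, ℝ)) (hf : 0 ≤ f) : 0 ≤ m.int f := by
  letI : MeasurableSpace K := borel K
  exact integral_nonneg fun x => hf x

lemma M1.int_one (m : M1 K) : m.int 1 = 1 := by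
  letI : MeasurableSpace K := borel K
  haveI := m.prob
  change ∫ _x : K, (1 : ℝ) ∂m.μ = 1
  simp

/-- The integral as a linear functional. -/
noncomputable def M1.lin (m : M1 K) : C(K, ℝ) →ₗ[ℝ] ℝ where
  toFun := m.int
  map_add' := m.int_add
  map_smul' c f := by
    rw [m.int_smul]
    rfl

variable [T2Space K]

lemma M1.ext_of_int (m m' : M1 K) (h : ∀ f, m.int f = m'.int f) : m = m' := by
  letI : MeasurableSpace K := borel K
  haveI : BorelSpace K := ⟨rfl⟩
  obtain ⟨μ, hp, hr⟩ := m
  obtain ⟨ν, hp', hr'⟩ := m'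
  have : μ = ν := Measure.ext_of_integral_eq_on_compactlySupported fun f => h f.toContinuousMap
  subst this
  rfl

/-- The Riesz representation theorem. -/
lemma M1.exists_of_functional (Λ : C(K, ℝ) →ₗ[ℝ] ℝ) (hpos : ∀ f, 0 ≤ f → 0 ≤ Λ f)
    (h1 : Λ 1 = 1) : ∃ m : M1 K, ∀ f, m.int f = Λ f := by
  letI : MeasurableSpace K := borel K
  haveI : BorelSpace K := ⟨rfl⟩
  let Λ' : CompactlySupportedContinuousMap K ℝ →ₗ[ℝ] ℝ :=
    { toFun := fun f => Λ f.toContinuousMap
      map_add' := fun f g => by
        rw [← map_add]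
        rfl
      map_smul' := fun c f => by
        rw [RingHom.id_apply, ← map_smul]
        rfl }
  let Λ'' : CompactlySupportedContinuousMap K ℝ →ₚ[ℝ] ℝ :=
    PositiveLinearMap.mk₀ Λ' fun f hf => hpos _ fun x => hf x
  have hint : ∀ f : C(K, ℝ), ∫ x, f x ∂(RealRMK.rieszMeasure Λ'') = Λ f := by
    intro f
    have := RealRMK.integral_rieszMeasure Λ''
      (CompactlySupportedContinuousMap.continuousMapEquiv f)
    exact this
  have hprob : IsProbabilityMeasure (RealRMK.rieszMeasure Λ'') := by
    constructor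
    have h2 := hint 1
    rw [h1] at h2
    have h3 : ∫ x : K, (1 : ℝ) ∂(RealRMK.rieszMeasure Λ'') = 1 := h2
    rw [integral_const, smul_eq_mul, mul_one] at h3
    rw [measureReal_def] at h3
    have h4 : RealRMK.rieszMeasure Λ'' Set.univ ≠ ⊤ := measure_ne_top _ _
    rw [← ENNReal.toReal_eq_one_iff]
    exact h3
  exact ⟨⟨RealRMK.rieszMeasure Λ'', hprob, inferInstance⟩, hint⟩

end compact

section order

variable {V : Type} [AddCommGroup V] [Module ℝ V] [TopologicalSpace V] {X : Set V}

/-- `f` is convex on `X`. -/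
def IsConvexFn (f : C(X, ℝ)) : Prop :=
  ∀ (x y z : X) (t : ℝ), 0 ≤ t → t ≤ 1 → (z : V) = t • (x : V) + (1 - t) • (y : V) →
    f z ≤ t * f x + (1 - t) * f y

/-- `a` is affine on `X`. -/
def IsAffineFn (a : C(X, ℝ)) : Prop :=
  ∀ (x y z : X) (t : ℝ), 0 ≤ t → t ≤ 1 → (z : V) = t • (x : V) + (1 - t) • (y : V) →
    a z = t * a x + (1 - t) * a y

/-- `m` represents `x`: `a(x) = ∫ a dm` for all continuous affine `a`. -/
def Represents (m : M1 X) (x : X) : Prop := ∀ a : C(X, ℝ), IsAffineFn a → a x = m.int a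

/-- The Choquet order: `∫ f dm ≤ ∫ f dm'` for all continuous convex `f`. -/
def Prec (m m' : M1 X) : Prop := ∀ f : C(X, ℝ), IsConvexFn f → m.int f ≤ m'.int f

/-- `m` is maximal for the Choquet order. -/
def IsMaximalM (m : M1 X) : Prop := ∀ m', Prec m m' → m' = m

/-- Every point of `X` has exactly one maximal representing measure. -/
def IsSimplex (X : Set V) : Prop := ∀ x : X, ∃! m : M1 X, IsMaximalM m ∧ Represents m x

/-- `T : X → M¹(X)` is the pointwise limit of a sequence of continuous maps. -/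
def InC1 (T : X → M1 X) : Prop :=
  ∃ Tk : ℕ → X → M1 X, (∀ k, Continuous (Tk k)) ∧
    ∀ x, Tendsto (fun k => Tk k x) atTop (𝓝 (T x))

/-- `E` is `K`-analytic: the union of the values of an upper semicontinuous compact-valued map
defined on `ℕ^ℕ`. -/
def IsKAnalytic {V : Type} [TopologicalSpace V] (E : Set V) : Prop :=
  ∃ Φ : (ℕ → ℕ) → Set V, (∀ σ, IsCompact (Φ σ)) ∧
    (∀ σ, ∀ U : Set V, IsOpen U → Φ σ ⊆ U → ∀ᶠ τ in 𝓝 σ, Φ τ ⊆ U) ∧ ⋃ σ, Φ σ = E

/-- `E` is an `F_σ` set. -/
def IsFsigma {V : Type} [TopologicalSpace V] (E : Set V) : Prop :=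
  ∃ C : ℕ → Set V, (∀ n, IsClosed (C n)) ∧ ⋃ n, C n = E

lemma isKAnalytic_of_compacts {V : Type} [TopologicalSpace V] (C : ℕ → Set V)
    (hC : ∀ n, IsCompact (C n)) : IsKAnalytic (⋃ n, C n) := by
  refine ⟨fun σ => C (σ 0), fun σ => hC _, fun σ U hU hσ => ?_, ?_⟩
  · have h0 : ContinuousAt (fun τ : ℕ → ℕ => τ 0) σ := (continuous_apply 0).continuousAt
    have h1 : {σ 0} ∈ 𝓝 (σ 0) := by simp
    filter_upwards [h0 h1] with τ hτ
    have : τ 0 = σ 0 := hτ
    change C (τ 0) ⊆ U
    rw [this]
    exact hσ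
  · ext v
    simp only [Set.mem_iUnion]
    constructor
    · rintro ⟨σ, h⟩
      exact ⟨σ 0, h⟩
    · rintro ⟨n, h⟩
      exact ⟨fun _ => n, h⟩

lemma isAffineFn_convex {a : C(X, ℝ)} (h : IsAffineFn a) : IsConvexFn a :=
  fun x y z t h0 h1 hz => (h x y z t h0 h1 hz).le

lemma isAffineFn_neg {a : C(X, ℝ)} (h : IsAffineFn a) : IsAffineFn (-a) := by
  intro x y z t h0 h1 hz
  simp only [ContinuousMap.neg_apply, h x y z t h0 h1 hz]
  ring

/-- Two Radon probabilities agreeing on the continuous convex functions are equal. -/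
lemma eq_of_convex [CompactSpace X] [T2Space X]
    (hsep : ∀ x y : X, x ≠ y → ∃ a : C(X, ℝ), IsAffineFn a ∧ a x ≠ a y)
    (m m' : M1 X) (h : ∀ f, IsConvexFn f → m.int f = m'.int f) : m = m' := by
  set L : Set C(X, ℝ) := {h | ∃ f g : C(X, ℝ), IsConvexFn f ∧ IsConvexFn g ∧ h = f - g} with hL
  have cadd : ∀ f g : C(X, ℝ), IsConvexFn f → IsConvexFn g → IsConvexFn (f + g) := by
    intro f g hf hg x y z t h0 h1 hz
    have e1 := hf x y z t h0 h1 hz
    have e2 := hg x y z t h0 h1 hz
    simp only [ContinuousMap.add_apply]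
    linarith
  have csup : ∀ f g : C(X, ℝ), IsConvexFn f → IsConvexFn g → IsConvexFn (f ⊔ g) := by
    intro f g hf hg x y z t h0 h1 hz
    have e1 := hf x y z t h0 h1 hz
    have e2 := hg x y z t h0 h1 hz
    simp only [ContinuousMap.sup_apply]
    have h1' : 0 ≤ 1 - t := by linarith
    refine sup_le ?_ ?_
    · have a1 := mul_le_mul_of_nonneg_left (le_sup_left : f x ≤ f x ⊔ g x) h0
      have a2 := mul_le_mul_of_nonneg_left (le_sup_left : f y ≤ f y ⊔ g y) h1'
      linarith
    · have a1 := mul_le_mul_of_nonneg_left (le_sup_right : g x ≤ f x ⊔ g x) h0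
      have a2 := mul_le_mul_of_nonneg_left (le_sup_right : g y ≤ f y ⊔ g y) h1'
      linarith
  have supmem : ∀ f ∈ L, ∀ g ∈ L, f ⊔ g ∈ L := by
    rintro _ ⟨f1, g1, hf1, hg1, rfl⟩ _ ⟨f2, g2, hf2, hg2, rfl⟩
    refine ⟨(f1 + g2) ⊔ (f2 + g1), g1 + g2, csup _ _ (cadd _ _ hf1 hg2) (cadd _ _ hf2 hg1),
      cadd _ _ hg1 hg2, ?_⟩
    ext x
    simp only [ContinuousMap.sup_apply, ContinuousMap.sub_apply, ContinuousMap.add_apply]
    rcases le_total (f1 x - g1 x) (f2 x - g2 x) with h | h
    · rw [sup_eq_right.2 h, sup_eq_right.2 (by linarith)]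
      ring
    · rw [sup_eq_left.2 h, sup_eq_left.2 (by linarith)]
      ring
  have infmem : ∀ f ∈ L, ∀ g ∈ L, f ⊓ g ∈ L := by
    rintro _ ⟨f1, g1, hf1, hg1, rfl⟩ _ ⟨f2, g2, hf2, hg2, rfl⟩
    refine ⟨f1 + f2, (f1 + g2) ⊔ (f2 + g1), cadd _ _ hf1 hf2,
      csup _ _ (cadd _ _ hf1 hg2) (cadd _ _ hf2 hg1), ?_⟩
    ext x
    simp only [ContinuousMap.sup_apply, ContinuousMap.inf_apply, ContinuousMap.sub_apply,
      ContinuousMap.add_apply]
    rcases le_total (f1 x - g1 x) (f2 x - g2 x) with h | h
    · rw [inf_eq_left.2 h, sup_eq_right.2 (by linarith)]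
      ring
    · rw [inf_eq_right.2 h, sup_eq_left.2 (by linarith)]
      ring
  have hconst : ∀ c : ℝ, IsConvexFn (ContinuousMap.const X c) := by
    intro c x y z t h0 h1 hz
    simp only [ContinuousMap.const_apply]
    linarith
  have haff : ∀ (a : C(X, ℝ)) (c d : ℝ), IsAffineFn a →
      IsConvexFn (c • a + ContinuousMap.const X d) := by
    intro a c d ha x y z t h0 h1 hz
    have := ha x y z t h0 h1 hz
    simp only [ContinuousMap.add_apply, ContinuousMap.smul_apply, smul_eq_mul,
      ContinuousMap.const_apply, this]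
    apply le_of_eq
    ring
  have sep : L.SeparatesPointsStrongly := by
    intro v x y
    by_cases hxy : x = y
    · subst hxy
      refine ⟨ContinuousMap.const X (v x), ⟨ContinuousMap.const X (v x), ContinuousMap.const X 0,
        hconst _, hconst _, ?_⟩, rfl, rfl⟩
      ext z
      simp
    · obtain ⟨a, ha, hne⟩ := hsep x y hxy
      have hne' : a x - a y ≠ 0 := sub_ne_zero.2 hne
      refine ⟨((v x - v y) / (a x - a y)) • a +
        ContinuousMap.const X (v x - (v x - v y) / (a x - a y) * a x),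
        ⟨((v x - v y) / (a x - a y)) • a +
          ContinuousMap.const X (v x - (v x - v y) / (a x - a y) * a x),
        ContinuousMap.const X 0, haff a _ _ ha, hconst 0, ?_⟩, ?_, ?_⟩
      · ext z
        simp
      · simp
      · simp only [ContinuousMap.add_apply, ContinuousMap.smul_apply, smul_eq_mul,
          ContinuousMap.const_apply]
        field_simp
        ring
  have hclosure := ContinuousMap.sublattice_closure_eq_top L
    ⟨ContinuousMap.const X 0 - ContinuousMap.const X 0, _, _, hconst 0, hconst 0, rfl⟩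
    infmem supmem sep
  apply M1.ext_of_int
  have hcont : ∀ m : M1 X, Continuous fun f : C(X, ℝ) => m.int f := by
    intro m
    have hb : ∀ f : C(X, ℝ), ‖m.lin f‖ ≤ 1 * ‖f‖ := by
      intro f
      change ‖m.int f‖ ≤ _
      letI : MeasurableSpace X := borel X
      haveI := m.prob
      have := norm_integral_le_of_norm_le_const (μ := m.μ) (f := f) (C := ‖f‖)
        (Filter.Eventually.of_forall fun x => f.norm_coe_le_norm x)
      have e : m.μ.real Set.univ = 1 := by simp
      rw [e, mul_one] at this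
      rw [one_mul]
      exact this
    exact (m.lin.mkContinuous 1 hb).continuous
  have hcl : IsClosed {f : C(X, ℝ) | m.int f = m'.int f} := isClosed_eq (hcont m) (hcont m')
  have hsub : L ⊆ {f : C(X, ℝ) | m.int f = m'.int f} := by
    rintro _ ⟨f, g, hf, hg, rfl⟩
    have e : ∀ m : M1 X, m.int (f - g) = m.int f - m.int g := fun m => map_sub m.lin f g
    change m.int (f - g) = m'.int (f - g)
    rw [e, e, h f hf, h g hg]
  intro f
  have : f ∈ closure L := by
    rw [hclosure]
    trivial
  exact (hcl.closure_subset_iff.2 hsub) this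

end order

end Pool.Agent.R348.PO
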