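import Pool.Agent.R348.PO.Big

/-!
# The simplex, its extreme points, and the maximal measure map
-/

set_option linter.style.haveILetI false
set_option linter.unusedSectionVars false

open MeasureTheory Filter Topology

namespace Pool.Agent.R348.PO

open Classical

section fin

variable {N A : Type} {R : N → A → Prop}

/-- coordinate functions -/
noncomputable def kc (R : N → A → Prop) (n : N) : C(XX R, ℝ) :=
  ⟨fun z => z.1.1 n, (continuous_apply n).comp (continuous_fst.comp continuous_subtype_val)⟩
/-- coordinate functions -/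
noncomputable def ka (R : N → A → Prop) (s : A) : C(XX R, ℝ) :=
  ⟨fun z => z.1.2.1 s, (continuous_apply s).comp
    ((continuous_fst.comp continuous_snd).comp continuous_subtype_val)⟩
/-- coordinate functions -/
noncomputable def kd (R : N → A → Prop) (s : A) : C(XX R, ℝ) :=
  ⟨fun z => z.1.2.2 s, (continuous_apply s).comp
    ((continuous_snd.comp continuous_snd).comp continuous_subtype_val)⟩

lemma sep_XX (x y : XX R) (hxy : x ≠ y) : ∃ a : C(XX R, ℝ), IsAffineFn a ∧ a x ≠ a y := by
  have h1 : ∀ n, IsAffineFn (kc R n) := by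
    intro n a b c t _ _ hc
    change c.1.1 n = t * a.1.1 n + (1 - t) * b.1.1 n
    rw [hc]
    simp
  have h2 : ∀ n, IsAffineFn (ka R n) := by
    intro n a b c t _ _ hc
    change c.1.2.1 n = t * a.1.2.1 n + (1 - t) * b.1.2.1 n
    rw [hc]
    simp
  have h3 : ∀ n, IsAffineFn (kd R n) := by
    intro n a b c t _ _ hc
    change c.1.2.2 n = t * a.1.2.2 n + (1 - t) * b.1.2.2 n
    rw [hc]
    simp
  by_contra hcon
  push Not at hcon
  apply hxy
  apply Subtype.ext
  refine Prod.ext ?_ (Prod.ext ?_ ?_)
  · funext n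
    exact hcon _ (h1 n)
  · funext s
    exact hcon _ (h2 s)
  · funext s
    exact hcon _ (h3 s)

variable (AD : ∀ s t : A, s ≠ t → {n : N | R n s ∧ R n t}.Finite)

lemma TT_rep (z : XX R) (a : C(XX R, ℝ)) (ha : IsAffineFn a) : a z = TT z.2 AD a := by
  let Λ : C(XX R, ℝ) →ₗ[ℝ] ℝ :=
    { toFun := fun f => f z
      map_add' := fun _ _ => rfl
      map_smul' := fun _ _ => rfl }
  have key : ∀ f : C(XX R, ℝ), IsConvexFn f → Λ f ≤ TT z.2 AD f := fun f hf =>
    le_TT z.2 AD Λ (fun f hf => hf z) rfl (fun a _ => rfl) f hf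
  have h1 := key a (isAffineFn_convex ha)
  have h2 := key (-a) (isAffineFn_convex (isAffineFn_neg ha))
  rw [map_neg, map_neg] at h2
  have h3 : Λ a = a z := rfl
  linarith

lemma exists_T (z : XX R) : ∃ m : M1 (XX R), (∀ f, m.int f = TT z.2 AD f) ∧
    IsMaximalM m ∧ Represents m z := by
  obtain ⟨m, hm⟩ := M1.exists_of_functional (TT z.2 AD) (TT_nonneg z.2 AD) (TT_one z.2 AD)
  refine ⟨m, hm, fun m' hm' => ?_, fun a ha => ?_⟩
  · have hrep : ∀ a : C(XX R, ℝ), IsAffineFn a → a z = m'.lin a := by
      intro a ha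
      have h1 := hm' a (isAffineFn_convex ha)
      have h2 := hm' (-a) (isAffineFn_convex (isAffineFn_neg ha))
      rw [hm, ← TT_rep AD z a ha] at h1
      rw [hm, map_neg, ← TT_rep AD z a ha] at h2
      have h3 : m'.int (-a) = - m'.int a := map_neg m'.lin a
      have h4 : m'.lin a = m'.int a := rfl
      rw [h3] at h2
      rw [h4]
      linarith
    apply eq_of_convex sep_XX
    intro f hf
    have h1 := hm' f hf
    have h2 := le_TT z.2 AD m'.lin (fun f hf => m'.int_nonneg f hf) m'.int_one hrep f hf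
    have h3 : m'.lin f = m'.int f := rfl
    rw [h3, ← hm] at h2
    exact le_antisymm h2 h1
  · rw [hm]
    exact TT_rep AD z a ha

lemma T_unique (z : XX R) (m : M1 (XX R)) (hmax : IsMaximalM m) (hrep : Represents m z)
    (f : C(XX R, ℝ)) : m.int f = TT z.2 AD f := by
  obtain ⟨m0, h0, _, _⟩ := exists_T AD z
  have : Prec m m0 := by
    intro f hf
    rw [h0]
    exact le_TT z.2 AD m.lin (fun f hf => m.int_nonneg f hf) m.int_one hrep f hf
  rw [← hmax m0 this]
  exact h0 f

include AD in
theorem isSimplex_XX : IsSimplex (XX R) := by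
  intro z
  obtain ⟨m0, h0, h1, h2⟩ := exists_T AD z
  refine ⟨m0, ⟨h1, h2⟩, fun m hm => ?_⟩
  apply M1.ext_of_int
  intro f
  rw [h0, T_unique AD z m hm.1 hm.2]

/-! ### extreme points -/

lemma unique_en (w : VV N A) (hw : w ∈ XX R) (n : N) (h : w.1 n = 1) : w = en R n := by
  refine Prod.ext ?_ (Prod.ext ?_ ?_)
  · funext m
    simp only [en]
    by_cases hm : m = n
    · rw [if_pos hm, hm, h]
    · rw [if_neg hm]
      have h1 := XX_c_le w hw {m, n}
      rw [Finset.sum_pair hm, h] at h1
      exact le_antisymm (by linarith) (hw.1 m)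
  · funext s
    have h1 := hw.2.2 {n} {s} (ov_singleton s _)
    have h2 := hw.2.1 {n} s
    simp only [W, U, Finset.sum_singleton, h] at h1 h2
    have h3 := abs_nonneg (w.2.2 s)
    simp only [en]
    split_ifs at h1 h2 ⊢ with hR <;> linarith
  · funext s
    have h1 := hw.2.2 {n} {s} (ov_singleton s _)
    have h2 := hw.2.1 {n} s
    simp only [W, U, Finset.sum_singleton, h] at h1 h2
    have h3 := abs_nonneg (w.2.2 s)
    have h4 : |w.2.2 s| = 0 := by
      split_ifs at h1 h2 with hR <;> linarith
    simp only [en]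
    exact abs_eq_zero.1 h4

include AD in
lemma unique_es (w : VV N A) (hw : w ∈ XX R) (s : A) (b : ℝ) (hb : |b| = 1) (h : w.2.1 s = 1)
    (hd : w.2.2 s = b) : w = es N s b := by
  have hc : ∀ m, w.1 m = 0 := by
    intro m
    have h1 := hw.2.2 {m} {s} (ov_singleton s _)
    have h2 := hw.2.1 {m} s
    simp only [W, Finset.sum_singleton] at h1
    rw [hd, hb] at h2
    exact le_antisymm (by linarith) (hw.1 m)
  have hU : ∀ F t, U R F w t = w.2.1 t := by
    intro F t
    simp [U, hc]
  have ht : ∀ t, t ≠ s → w.2.1 t = 0 ∧ w.2.2 t = 0 := by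
    intro t hts
    obtain ⟨F, hF⟩ := exists_ov AD {t, s}
    have h1 := hw.2.2 F {t, s} hF
    have h2 := hw.2.1 F t
    rw [hU] at h2
    simp only [W, hU, Finset.sum_pair hts, h, hc, Finset.sum_const_zero] at h1
    have h3 := abs_nonneg (w.2.2 t)
    refine ⟨by linarith, abs_eq_zero.1 (by linarith)⟩
  refine Prod.ext ?_ (Prod.ext ?_ ?_)
  · funext m
    exact hc m
  · funext t
    simp only [es]
    by_cases hts : t = s
    · rw [if_pos hts, hts, h]
    · rw [if_neg hts]
      exact (ht t hts).1
  · funext t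
    simp only [es]
    by_cases hts : t = s
    · rw [if_pos hts, hts, hd]
    · rw [if_neg hts]
      exact (ht t hts).2

lemma one_of_comb {a b x y : ℝ} (ha : 0 < a) (hb : 0 < b) (hab : a + b = 1) (hx : x ≤ 1)
    (hy : y ≤ 1) (h : a * x + b * y = 1) : x = 1 := by
  have h1 : b * y ≤ b * 1 := mul_le_mul_of_nonneg_left hy hb.le
  have h2 : a * 1 ≤ a * x := by linarith
  exact le_antisymm hx (le_of_mul_le_mul_left h2 ha)

lemma en_ext (n : N) : en R n ∈ (XX R).extremePoints ℝ := by
  rw [mem_extremePoints]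
  have key : ∀ x ∈ XX R, ∀ y ∈ XX R, en R n ∈ openSegment ℝ x y → x = en R n := by
    rintro x hx y hy ⟨a, b, ha, hb, hab, h⟩
    have h1 := congrArg (fun z : VV N A => z.1 n) h
    simp only [Prod.fst_add, Prod.smul_fst, Pi.add_apply, Pi.smul_apply, smul_eq_mul] at h1
    have h2 : (en R n).1 n = 1 := by simp [en]
    rw [h2] at h1
    have e1 : x.1 n ≤ 1 := by simpa using XX_c_le x hx {n}
    have e2 : y.1 n ≤ 1 := by simpa using XX_c_le y hy {n}
    exact unique_en x hx n (one_of_comb ha hb hab e1 e2 h1)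
  refine ⟨en_mem n, fun x hx y hy h => ⟨key x hx y hy h, key y hy x hx ?_⟩⟩
  rw [openSegment_symm]
  exact h

include AD in
lemma es_ext (s : A) (b : ℝ) (hb : b = 1 ∨ b = -1) : es N s b ∈ (XX R).extremePoints ℝ := by
  have hb' : |b| = 1 := by
    rcases hb with rfl | rfl <;> norm_num
  have hbb : b * b = 1 := by
    rcases hb with rfl | rfl <;> norm_num
  rw [mem_extremePoints]
  have key : ∀ x ∈ XX R, ∀ y ∈ XX R, es N s b ∈ openSegment ℝ x y → x = es N s b := by
    rintro x hx y hy ⟨a, c, ha, hc, hac, h⟩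
    have h1 := congrArg (fun z : VV N A => z.2.1 s) h
    have h2 := congrArg (fun z : VV N A => z.2.2 s) h
    simp only [Prod.fst_add, Prod.snd_add, Prod.smul_fst, Prod.smul_snd, Pi.add_apply,
      Pi.smul_apply, smul_eq_mul] at h1 h2
    have h3 : (es N s b).2.1 s = 1 := by simp [es]
    have h4 : (es N s b).2.2 s = b := by simp [es]
    rw [h3] at h1
    rw [h4] at h2
    obtain ⟨x1, x2⟩ := XX_a_le x hx s
    obtain ⟨y1, y2⟩ := XX_a_le y hy s
    have e1 := one_of_comb ha hc hac x2 y2 h1
    have hxb : b * x.2.2 s ≤ 1 := by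
      calc b * x.2.2 s ≤ |b * x.2.2 s| := le_abs_self _
        _ = |x.2.2 s| := by rw [abs_mul, hb', one_mul]
        _ ≤ 1 := x1.trans x2
    have hyb : b * y.2.2 s ≤ 1 := by
      calc b * y.2.2 s ≤ |b * y.2.2 s| := le_abs_self _
        _ = |y.2.2 s| := by rw [abs_mul, hb', one_mul]
        _ ≤ 1 := y1.trans y2
    have h5 : a * (b * x.2.2 s) + c * (b * y.2.2 s) = 1 := by
      have : a * (b * x.2.2 s) + c * (b * y.2.2 s) = b * (a * x.2.2 s + c * y.2.2 s) := by ring
      rw [this, h2, hbb]
    have e2 := one_of_comb ha hc hac hxb hyb h5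
    have e3 : x.2.2 s = b := by
      have : x.2.2 s = (b * b) * x.2.2 s := by rw [hbb, one_mul]
      rw [this, mul_assoc, e2, mul_one]
    exact unique_es AD x hx s b hb' e1 e3
  refine ⟨es_mem s b hb'.le, fun x hx y hy h => ⟨key x hx y hy h, key y hy x hx ?_⟩⟩
  rw [openSegment_symm]
  exact h

lemma zero_ext : (0 : VV N A) ∈ (XX R).extremePoints ℝ := by
  rw [mem_extremePoints]
  have key : ∀ x ∈ XX R, ∀ y ∈ XX R, (0 : VV N A) ∈ openSegment ℝ x y → x = 0 := by
    rintro x hx y hy ⟨a, c, ha, hc, hac, h⟩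
    have zero_of : ∀ {p q : ℝ}, 0 ≤ p → 0 ≤ q → a * p + c * q = 0 → p = 0 := by
      intro p q hp hq hpq
      have h1 : 0 ≤ c * q := mul_nonneg hc.le hq
      have h2 : 0 ≤ a * p := mul_nonneg ha.le hp
      have h3 : a * p = 0 := by linarith
      rcases mul_eq_zero.1 h3 with h4 | h4
      · exact absurd h4 ha.ne'
      · exact h4
    have hA : ∀ s, x.2.1 s = 0 := by
      intro s
      have h1 := congrArg (fun z : VV N A => z.2.1 s) h
      simp only [Prod.fst_add, Prod.snd_add, Prod.smul_fst, Prod.smul_snd, Pi.add_apply,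
        Pi.smul_apply, smul_eq_mul] at h1
      exact zero_of ((abs_nonneg _).trans (XX_a_le x hx s).1)
        ((abs_nonneg _).trans (XX_a_le y hy s).1) h1
    refine Prod.ext ?_ (Prod.ext ?_ ?_)
    · funext n
      have h1 := congrArg (fun z : VV N A => z.1 n) h
      simp only [Prod.fst_add, Prod.smul_fst, Pi.add_apply, Pi.smul_apply, smul_eq_mul] at h1
      exact zero_of (hx.1 n) (hy.1 n) h1
    · funext s
      exact hA s
    · funext s
      have h1 := (XX_a_le x hx s).1
      rw [hA] at h1
      exact abs_eq_zero.1 (le_antisymm h1 (abs_nonneg _))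
  refine ⟨zero_mem, fun x hx y hy h => ⟨key x hx y hy h, key y hy x hx ?_⟩⟩
  rw [openSegment_symm]
  exact h

/-- splitting off a point -/
lemma eq_of_split {x e x' : VV N A} (hx : x ∈ (XX R).extremePoints ℝ) (he : e ∈ XX R) (q : ℝ)
    (h0 : 0 < q) (h1 : q < 1) (hx' : x' ∈ XX R) (h : x = q • e + (1 - q) • x') : x = e := by
  rw [mem_extremePoints] at hx
  have := (hx.2 e he x' hx' ⟨q, 1 - q, h0, by linarith, by ring, h.symm⟩).1
  exact this.symm

lemma U_insert (F : Finset N) (x : VV N A) (n : N) (s : A) :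
    U R (insert n F) x s = U R F x s - x.1 n * U R F (en R n) s := by
  by_cases h : n ∈ F
  · rw [Finset.insert_eq_of_mem h, U_en]
    simp [h]
  · rw [U_en]
    unfold U
    rw [Finset.sum_insert h]
    by_cases hR : R n s
    · simp only [hR, h, if_true, not_false_eq_true, and_self]
      ring
    · simp only [hR, if_false, false_and]
      ring

lemma W_insert (F : Finset N) (S : Finset A) (x : VV N A) (n : N) :
    W R (insert n F) S x = W R F S x - x.1 n * W R F S (en R n) := by
  unfold W
  simp only [U_insert, Finset.sum_sub_distrib, ← Finset.mul_sum]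
  by_cases h : n ∈ F
  · rw [Finset.insert_eq_of_mem h]
    have : ∑ m ∈ F, (en R n).1 m = 1 := by simp [en, h]
    rw [this]
    ring
  · rw [Finset.sum_insert h]
    have : ∑ m ∈ F, (en R n).1 m = 0 := by simp [en, h]
    rw [this]
    ring

lemma ext_c (x : VV N A) (hx : x ∈ (XX R).extremePoints ℝ) (n : N) (hn : x.1 n ≠ 0) :
    x = en R n := by
  have hxX : x ∈ XX R := hx.1
  have hc1 : x.1 n ≤ 1 := by simpa using XX_c_le x hxX {n}
  have hc0 : 0 < x.1 n := lt_of_le_of_ne (hxX.1 n) (Ne.symm hn)
  rcases hc1.eq_or_lt with h1 | h1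
  · exact unique_en x hxX n h1
  · set q := x.1 n with hq
    have hq' : 0 < 1 - q := by linarith
    refine eq_of_split hx (en_mem n) q hc0 h1
      (x' := (1 - q)⁻¹ • x + (1 - (1 - q)⁻¹) • en R n) ⟨fun m => ?_, fun F s => ?_,
        fun F S hS => ?_⟩ ?_
    · simp only [Prod.fst_add, Prod.smul_fst, Pi.add_apply, Pi.smul_apply, smul_eq_mul]
      by_cases hm : m = n
      · have e : (en R n).1 m = 1 := by simp [en, hm]
        rw [e, hm, ← hq]
        apply le_of_eq
        field_simp
        ring
      · have e : (en R n).1 m = 0 := by simp [en, hm]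
        rw [e, mul_zero, add_zero]
        exact mul_nonneg (inv_pos.2 hq').le (hxX.1 m)
    · rw [U_add]
      have e1 : (1 - q)⁻¹ * U R F x s + (1 - (1 - q)⁻¹) * U R F (en R n) s =
          (1 - q)⁻¹ * U R (insert n F) x s := by
        rw [U_insert, ← hq]
        field_simp
        ring
      have e2 : ((1 - q)⁻¹ • x + (1 - (1 - q)⁻¹) • en R n).2.2 s = (1 - q)⁻¹ * x.2.2 s := by
        simp [en]
      rw [e1, e2, abs_mul, abs_of_pos (inv_pos.2 hq')]
      exact mul_le_mul_of_nonneg_left (hxX.2.1 _ s) (inv_pos.2 hq').le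
    · rw [W_add _ _ _ _ _ _ (by ring)]
      have e1 : (1 - q)⁻¹ * W R F S x + (1 - (1 - q)⁻¹) * W R F S (en R n) =
          (1 - q)⁻¹ * W R (insert n F) S x := by
        rw [W_insert, ← hq]
        field_simp
        ring
      rw [e1]
      exact mul_nonneg (inv_pos.2 hq').le (hxX.2.2 _ _ (hS.mono (Finset.subset_insert n F)))
    · have : (1 - q) * (1 - q)⁻¹ = 1 := mul_inv_cancel₀ hq'.ne'
      rw [smul_add, smul_smul, smul_smul, this, one_smul, mul_sub, this, mul_one]
      module

include AD in
lemma ext_a (x : VV N A) (hx : x ∈ (XX R).extremePoints ℝ) (hc : ∀ n, x.1 n = 0) (s : A)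
    (hs : x.2.1 s ≠ 0) : x = es N s 1 ∨ x = es N s (-1) := by
  have hxX : x ∈ XX R := hx.1
  obtain ⟨h1, h2⟩ := XX_a_le x hxX s
  have hU : ∀ F t, U R F x t = x.2.1 t := by
    intro F t
    simp [U, hc]
  have hsum : ∀ S : Finset A, ∑ t ∈ S, x.2.1 t ≤ 1 := by
    intro S
    obtain ⟨F, hF⟩ := exists_ov AD S
    have := hxX.2.2 F S hF
    simp only [W, hU, hc, Finset.sum_const_zero] at this
    linarith
  have hpos : 0 < x.2.1 s := lt_of_le_of_ne ((abs_nonneg _).trans h1) (Ne.symm hs)
  have key : ∀ b : ℝ, (b = 1 ∨ b = -1) → 0 < (x.2.1 s + b * x.2.2 s) / 2 → x = es N s b := by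
    intro b hb hqpos
    have hb' : |b| = 1 := by
      rcases hb with rfl | rfl <;> norm_num
    have hbb : b * b = 1 := by
      rcases hb with rfl | rfl <;> norm_num
    have hbd : b * x.2.2 s ≤ x.2.1 s := by
      calc b * x.2.2 s ≤ |b * x.2.2 s| := le_abs_self _
        _ = |x.2.2 s| := by rw [abs_mul, hb', one_mul]
        _ ≤ _ := h1
    set q := (x.2.1 s + b * x.2.2 s) / 2 with hq
    have hq1 : q ≤ x.2.1 s := by rw [hq]; linarith
    rcases (hq1.trans h2).eq_or_lt with hq2 | hq2
    · have e1 : x.2.1 s = 1 := le_antisymm h2 (by linarith)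
      have e2 : b * x.2.2 s = 1 := by
        rw [hq, e1] at hq2
        linarith
      have e3 : x.2.2 s = b := by
        have : x.2.2 s = (b * b) * x.2.2 s := by rw [hbb, one_mul]
        rw [this, mul_assoc, e2, mul_one]
      exact unique_es AD x hxX s b hb' e1 e3
    · have hq' : 0 < 1 - q := by linarith
      refine eq_of_split hx (es_mem s b hb'.le) q hqpos hq2
        (x' := (1 - q)⁻¹ • x + (1 - (1 - q)⁻¹) • es N s b) ⟨fun m => ?_, fun F t => ?_,
          fun F S hS => ?_⟩ ?_
      · simp [hc, es]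
      · rw [U_add, hU, U_es]
        have e2 : ((1 - q)⁻¹ • x + (1 - (1 - q)⁻¹) • es N s b).2.2 t =
            (1 - q)⁻¹ * (x.2.2 t - if t = s then q * b else 0) := by
          by_cases hts : t = s
          · simp [es, hts]
            field_simp
            ring
          · simp [es, hts]
        have e1 : (1 - q)⁻¹ * x.2.1 t + (1 - (1 - q)⁻¹) * (if t = s then 1 else 0) =
            (1 - q)⁻¹ * (x.2.1 t - if t = s then q else 0) := by
          by_cases hts : t = s
          · simp only [hts, if_true]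
            field_simp
            ring
          · simp [hts]
        rw [e1, e2, abs_mul, abs_of_pos (inv_pos.2 hq')]
        refine mul_le_mul_of_nonneg_left ?_ (inv_pos.2 hq').le
        by_cases hts : t = s
        · simp only [hts, if_true]
          rcases hb with rfl | rfl
          · rw [hq, abs_le]
            constructor <;> linarith
          · rw [hq, abs_le]
            constructor <;> linarith
        · simp only [hts, if_false, sub_zero]
          exact (XX_a_le x hxX t).1
      · rw [W_add _ _ _ _ _ _ (by ring)]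
        have e1 : W R F S (es N s b) = 1 - if s ∈ S then 1 else 0 := by
          unfold W
          simp only [U_es, Finset.sum_ite_eq']
          simp [es]
        have e0 : W R F S x = 1 - ∑ t ∈ S, x.2.1 t := by
          simp [W, hU, hc]
        rw [e1, e0]
        have e2 : (1 - q)⁻¹ * (1 - ∑ t ∈ S, x.2.1 t) + (1 - (1 - q)⁻¹) *
            (1 - if s ∈ S then 1 else 0) =
            (1 - q)⁻¹ * (1 - ∑ t ∈ S, x.2.1 t - if s ∈ S then 0 else q) := by
          by_cases hsS : s ∈ S
          · simp [hsS]
          · simp only [hsS, if_false]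
            field_simp
            ring
        rw [e2]
        refine mul_nonneg (inv_pos.2 hq').le ?_
        by_cases hsS : s ∈ S
        · have := hsum S
          simp only [hsS, if_true]
          linarith
        · have := hsum (insert s S)
          rw [Finset.sum_insert hsS] at this
          simp only [hsS, if_false]
          linarith
      · have : (1 - q) * (1 - q)⁻¹ = 1 := mul_inv_cancel₀ hq'.ne'
        rw [smul_add, smul_smul, smul_smul, this, one_smul, mul_sub, this, mul_one]
        module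
  by_cases h : 0 < (x.2.1 s + 1 * x.2.2 s) / 2
  · exact Or.inl (key 1 (Or.inl rfl) h)
  · refine Or.inr (key (-1) (Or.inr rfl) ?_)
    push Not at h
    linarith

/-- the compact part of the extreme boundary -/
def LL (N A : Type) : Set (VV N A) :=
  {z | (∀ n, z.1 n = 0) ∧ (∀ s, (z.2.1 s = 0 ∧ z.2.2 s = 0) ∨
    (z.2.1 s = 1 ∧ (z.2.2 s = 1 ∨ z.2.2 s = -1))) ∧ ∀ s t, s ≠ t → z.2.1 s * z.2.1 t = 0}

lemma mem_LL (z : VV N A) : z ∈ LL N A ↔ z = 0 ∨ ∃ s, z = es N s 1 ∨ z = es N s (-1) := by
  constructor
  · rintro ⟨h1, h2, h3⟩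
    by_cases h : ∃ s, z.2.1 s ≠ 0
    · obtain ⟨s, hs⟩ := h
      refine Or.inr ⟨s, ?_⟩
      have hs1 : z.2.1 s = 1 ∧ (z.2.2 s = 1 ∨ z.2.2 s = -1) :=
        (h2 s).resolve_left fun h => hs h.1
      have ht : ∀ t, t ≠ s → z.2.1 t = 0 ∧ z.2.2 t = 0 := by
        intro t hts
        have e := h3 t s hts
        rw [hs1.1, mul_one] at e
        rcases h2 t with h | h
        · exact h
        · rw [h.1] at e
          norm_num at e
      have fin : ∀ b, z.2.2 s = b → z = es N s b := by
        intro b hb
        refine Prod.ext ?_ (Prod.ext ?_ ?_)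
        · funext m
          exact h1 m
        · funext t
          simp only [es]
          by_cases hts : t = s
          · rw [if_pos hts, hts, hs1.1]
          · rw [if_neg hts]
            exact (ht t hts).1
        · funext t
          simp only [es]
          by_cases hts : t = s
          · rw [if_pos hts, hts, hb]
          · rw [if_neg hts]
            exact (ht t hts).2
      exact hs1.2.imp (fin 1) (fin (-1))
    · push Not at h
      refine Or.inl (Prod.ext ?_ (Prod.ext ?_ ?_))
      · funext n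
        exact h1 n
      · funext s
        exact h s
      · funext s
        rcases h2 s with h' | h'
        · exact h'.2
        · have := h s
          rw [h'.1] at this
          norm_num at this
  · have fin : ∀ s b, (b = 1 ∨ b = -1) → es N s b ∈ LL N A := by
      intro s b hb
      refine ⟨fun n => rfl, fun t => ?_, fun t t' htt => ?_⟩
      · simp only [es]
        by_cases hts : t = s
        · simp [hts, hb]
        · simp [hts]
      · simp only [es]
        by_cases hts : t = s
        · have : t' ≠ s := fun h => htt (hts.trans h.symm)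
          simp [this]
        · simp [hts]
    rintro (rfl | ⟨s, rfl | rfl⟩)
    · exact ⟨fun n => rfl, fun s => Or.inl ⟨rfl, rfl⟩, fun s t _ => by simp⟩
    · exact fin s 1 (Or.inl rfl)
    · exact fin s (-1) (Or.inr rfl)

lemma isCompact_LL (R : N → A → Prop) : IsCompact (LL N A) := by
  refine (isCompact_XX (R := R)).of_isClosed_subset ?_ ?_
  · have : LL N A = (⋂ n, {z : VV N A | z.1 n = 0}) ∩ ((⋂ s, (({z : VV N A | z.2.1 s = 0} ∩
        {z : VV N A | z.2.2 s = 0}) ∪ ({z : VV N A | z.2.1 s = 1} ∩
        ({z : VV N A | z.2.2 s = 1} ∪ {z : VV N A | z.2.2 s = -1})))) ∩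
        ⋂ s, ⋂ t, ⋂ (_ : s ≠ t), {z : VV N A | z.2.1 s * z.2.1 t = 0}) := by
      ext z
      simp only [LL, Set.mem_ofPred_eq, Set.mem_inter_iff, Set.mem_iInter, Set.mem_union]
    rw [this]
    have c1 : ∀ n, Continuous fun z : VV N A => z.1 n := fun n =>
      (continuous_apply n).comp continuous_fst
    have c2 : ∀ s, Continuous fun z : VV N A => z.2.1 s := fun s =>
      (continuous_apply s).comp (continuous_fst.comp continuous_snd)
    have c3 : ∀ s, Continuous fun z : VV N A => z.2.2 s := fun s =>
      (continuous_apply s).comp (continuous_snd.comp continuous_snd)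
    refine IsClosed.inter (isClosed_iInter fun n => isClosed_eq (c1 n) continuous_const)
      (IsClosed.inter (isClosed_iInter fun s => IsClosed.union (IsClosed.inter
        (isClosed_eq (c2 s) continuous_const) (isClosed_eq (c3 s) continuous_const))
        (IsClosed.inter (isClosed_eq (c2 s) continuous_const) (IsClosed.union
          (isClosed_eq (c3 s) continuous_const) (isClosed_eq (c3 s) continuous_const))))
      (isClosed_iInter fun s => isClosed_iInter fun t => isClosed_iInter fun _ =>
        isClosed_eq ((c2 s).mul (c2 t)) continuous_const))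
  · intro z hz
    rcases (mem_LL z).1 hz with rfl | ⟨s, rfl | rfl⟩
    · exact zero_mem
    · exact es_mem s 1 (by norm_num)
    · exact es_mem s (-1) (by norm_num)

include AD in
theorem extremePoints_eq : (XX R).extremePoints ℝ = LL N A ∪ Set.range (en R) := by
  ext x
  constructor
  · intro hx
    by_cases h : ∃ n, x.1 n ≠ 0
    · obtain ⟨n, hn⟩ := h
      exact Or.inr ⟨n, (ext_c x hx n hn).symm⟩
    · push Not at h
      by_cases h' : ∃ s, x.2.1 s ≠ 0
      · obtain ⟨s, hs⟩ := h'
        exact Or.inl ((mem_LL x).2 (Or.inr ⟨s, ext_a AD x hx h s hs⟩))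
      · push Not at h'
        refine Or.inl ((mem_LL x).2 (Or.inl (Prod.ext ?_ (Prod.ext ?_ ?_))))
        · funext n
          exact h n
        · funext s
          exact h' s
        · funext s
          have := (XX_a_le x hx.1 s).1
          rw [h'] at this
          exact abs_eq_zero.1 (le_antisymm this (abs_nonneg _))
  · rintro (hx | ⟨n, rfl⟩)
    · rcases (mem_LL x).1 hx with rfl | ⟨s, rfl | rfl⟩
      · exact zero_ext
      · exact es_ext AD s 1 (Or.inl rfl)
      · exact es_ext AD s (-1) (Or.inr rfl)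
    · exact en_ext n

include AD in
theorem ext_compacts [Countable N] [Nonempty N] : ∃ C : ℕ → Set (VV N A),
    (∀ k, IsCompact (C k)) ∧ ⋃ k, C k = (XX R).extremePoints ℝ := by
  obtain ⟨φ, hφ⟩ := exists_surjective_nat N
  refine ⟨fun k => LL N A ∪ {en R (φ k)}, fun k => (isCompact_LL R).union isCompact_singleton, ?_⟩
  rw [extremePoints_eq AD]
  ext x
  simp only [Set.mem_iUnion, Set.mem_union, Set.mem_singleton_iff, Set.mem_range]
  constructor
  · rintro ⟨k, h | h⟩
    · exact Or.inl h
    · exact Or.inr ⟨φ k, h.symm⟩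
  · rintro (h | ⟨n, h⟩)
    · exact ⟨0, Or.inl h⟩
    · obtain ⟨k, rfl⟩ := hφ n
      exact ⟨k, Or.inr h.symm⟩

end fin

end Pool.Agent.R348.PO
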