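import Pool.Agent.R348.PO.Space

/-!
# The largest representing measure
-/

set_option linter.style.haveILetI false
set_option linter.unusedSectionVars false

open MeasureTheory Filter Topology

namespace Pool.Agent.R348.PO

open Classical

lemma jensen {V : Type} [AddCommGroup V] [Module ℝ V] [TopologicalSpace V] {X : Set V}
    (hX : Convex ℝ X) (f : C(X, ℝ)) (hf : IsConvexFn f) {ι : Type} (t : Finset ι) (w : ι → ℝ)
    (p : ι → X) (h0 : ∀ i ∈ t, 0 ≤ w i) (h1 : ∑ i ∈ t, w i = 1) (y : X)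
    (hy : (y : V) = ∑ i ∈ t, w i • (p i : V)) : f y ≤ ∑ i ∈ t, w i * f (p i) := by
  set g : V → ℝ := fun v => if h : v ∈ X then f ⟨v, h⟩ else 0 with hg
  have gX : ∀ x : X, g x = f x := fun x => by
    rw [hg]
    simp only [x.2, dif_pos]
  have hconv : ConvexOn ℝ X g := by
    refine ⟨hX, fun a ha b hb r s hr hs hrs => ?_⟩
    obtain rfl : s = 1 - r := by linarith
    have hm : r • a + (1 - r) • b ∈ X := hX ha hb hr hs hrs
    have e := hf ⟨a, ha⟩ ⟨b, hb⟩ ⟨_, hm⟩ r hr (by linarith) rfl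
    have e1 := gX ⟨a, ha⟩
    have e2 := gX ⟨b, hb⟩
    have e3 := gX ⟨_, hm⟩
    simp only at e1 e2 e3
    rw [e1, e2, e3, smul_eq_mul, smul_eq_mul]
    exact e
  have := hconv.map_sum_le h0 h1 fun i _ => (p i).2
  rw [← hy, gX] at this
  simpa [gX] using this

section lem

variable {N A : Type} {R : N → A → Prop}

instance : CompactSpace (XX R) := isCompact_iff_compactSpace.1 isCompact_XX

/-- `e_n` as a point of `X` -/
noncomputable def pn (R : N → A → Prop) (n : N) : XX R := ⟨en R n, en_mem n⟩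
/-- `e_{s,+}` as a point of `X` -/
noncomputable def pp (R : N → A → Prop) (s : A) : XX R := ⟨es N s 1, es_mem s 1 (by norm_num)⟩
/-- `e_{s,-}` as a point of `X` -/
noncomputable def pm (R : N → A → Prop) (s : A) : XX R := ⟨es N s (-1), es_mem s (-1) (by norm_num)⟩
/-- `e_∞` as a point of `X` -/
noncomputable def p0 (R : N → A → Prop) : XX R := ⟨0, zero_mem⟩

/-- a continuous function on `X` depends, up to `ε`, on finitely many coordinates -/
lemma fin_coord (f : C(XX R, ℝ)) (ε : ℝ) (hε : 0 < ε) :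
    ∃ (F : Finset N) (S : Finset A), ∀ z w : XX R, (∀ n ∈ F, z.1.1 n = w.1.1 n) →
      (∀ s ∈ S, z.1.2.1 s = w.1.2.1 s ∧ z.1.2.2 s = w.1.2.2 s) → |f z - f w| ≤ ε := by
  by_contra hcon
  push Not at hcon
  let C : Finset N × Finset A → Set (XX R × XX R) := fun p =>
    {q | (∀ n ∈ p.1, q.1.1.1 n = q.2.1.1 n) ∧
      (∀ s ∈ p.2, q.1.1.2.1 s = q.2.1.2.1 s ∧ q.1.1.2.2 s = q.2.1.2.2 s) ∧ ε ≤ |f q.1 - f q.2|}
  have hC : ∀ p, C p = (⋂ n ∈ p.1, {q : XX R × XX R | q.1.1.1 n = q.2.1.1 n}) ∩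
      ((⋂ s ∈ p.2, {q : XX R × XX R | q.1.1.2.1 s = q.2.1.2.1 s} ∩
        {q : XX R × XX R | q.1.1.2.2 s = q.2.1.2.2 s}) ∩
        {q : XX R × XX R | ε ≤ |f q.1 - f q.2|}) := by
    intro p
    ext q
    simp [C]
  have hclosed : ∀ p, IsClosed (C p) := by
    intro p
    rw [hC]
    have c1 : Continuous fun q : XX R × XX R => q.1.1 := continuous_subtype_val.comp continuous_fst
    have c2 : Continuous fun q : XX R × XX R => q.2.1 := continuous_subtype_val.comp continuous_snd
    refine IsClosed.inter (isClosed_biInter fun n _ => ?_) (IsClosed.inter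
      (isClosed_biInter fun s _ => IsClosed.inter ?_ ?_) ?_)
    · exact isClosed_eq ((continuous_apply n).comp c1.fst) ((continuous_apply n).comp c2.fst)
    · exact isClosed_eq ((continuous_apply s).comp c1.snd.fst) ((continuous_apply s).comp c2.snd.fst)
    · exact isClosed_eq ((continuous_apply s).comp c1.snd.snd) ((continuous_apply s).comp c2.snd.snd)
    · exact isClosed_le continuous_const
        ((f.continuous.comp continuous_fst).sub (f.continuous.comp continuous_snd)).abs
  have hne : ∀ p, (C p).Nonempty := by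
    intro p
    obtain ⟨z, w, h1, h2, h3⟩ := hcon p.1 p.2
    exact ⟨(z, w), h1, h2, h3.le⟩
  have hdir : Directed (· ⊇ ·) C := by
    intro p q
    refine ⟨(p.1 ∪ q.1, p.2 ∪ q.2), ?_, ?_⟩
    · rintro x ⟨h1, h2, h3⟩
      exact ⟨fun n hn => h1 n (Finset.mem_union_left _ hn),
        fun s hs => h2 s (Finset.mem_union_left _ hs), h3⟩
    · rintro x ⟨h1, h2, h3⟩
      exact ⟨fun n hn => h1 n (Finset.mem_union_right _ hn),
        fun s hs => h2 s (Finset.mem_union_right _ hs), h3⟩
  obtain ⟨q, hq⟩ := IsCompact.nonempty_iInter_of_directed_nonempty_isCompact_isClosed C hdir hne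
    (fun p => (hclosed p).isCompact) hclosed
  rw [Set.mem_iInter] at hq
  have e : q.1 = q.2 := by
    apply Subtype.ext
    refine Prod.ext ?_ (Prod.ext ?_ ?_)
    · funext n
      exact (hq ({n}, ∅)).1 n (Finset.mem_singleton_self n)
    · funext s
      exact ((hq (∅, {s})).2.1 s (Finset.mem_singleton_self s)).1
    · funext s
      exact ((hq (∅, {s})).2.1 s (Finset.mem_singleton_self s)).2
  have h3 := (hq (∅, ∅)).2.2
  rw [e, sub_self, abs_zero] at h3
  linarith

/-- the finite affine approximation -/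
noncomputable def gF (F : Finset N) (S : Finset A) (f : C(XX R, ℝ)) (z : VV N A) : ℝ :=
  ∑ n ∈ F, z.1 n * f (pn R n) + ∑ s ∈ S, ((U R F z s + z.2.2 s) / 2 * f (pp R s) +
    (U R F z s - z.2.2 s) / 2 * f (pm R s)) + W R F S z * f (p0 R)

lemma continuous_gF (F : Finset N) (S : Finset A) (f : C(XX R, ℝ)) :
    Continuous fun z : VV N A => gF F S f z := by
  unfold gF
  refine Continuous.add (Continuous.add ?_ ?_) ((continuous_W F S).mul continuous_const)
  · exact continuous_finset_sum _ fun n _ =>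
      ((continuous_apply n).comp continuous_fst).mul continuous_const
  · refine continuous_finset_sum _ fun s _ => ?_
    have c1 := continuous_U (R := R) F s
    have c2 : Continuous fun z : VV N A => z.2.2 s :=
      (continuous_apply s).comp (continuous_snd.comp continuous_snd)
    exact (((c1.add c2).div_const 2).mul continuous_const).add
      (((c1.sub c2).div_const 2).mul continuous_const)

lemma gF_add (F : Finset N) (S : Finset A) (f : C(XX R, ℝ)) (z w : VV N A) (a b : ℝ)
    (hab : a + b = 1) : gF F S f (a • z + b • w) = a * gF F S f z + b * gF F S f w := by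
  unfold gF
  rw [W_add F S z w a b hab]
  simp only [U_add, Prod.fst_add, Prod.snd_add, Prod.smul_fst, Prod.smul_snd, Pi.add_apply,
    Pi.smul_apply, smul_eq_mul]
  have h1 : ∑ n ∈ F, (a * z.1 n + b * w.1 n) * f (pn R n) =
      a * ∑ n ∈ F, z.1 n * f (pn R n) + b * ∑ n ∈ F, w.1 n * f (pn R n) := by
    rw [Finset.mul_sum, Finset.mul_sum, ← Finset.sum_add_distrib]
    exact Finset.sum_congr rfl fun n _ => by ring
  have h2 : ∑ s ∈ S, ((a * U R F z s + b * U R F w s + (a * z.2.2 s + b * w.2.2 s)) / 2 *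
      f (pp R s) + (a * U R F z s + b * U R F w s - (a * z.2.2 s + b * w.2.2 s)) / 2 *
      f (pm R s)) = a * ∑ s ∈ S, ((U R F z s + z.2.2 s) / 2 * f (pp R s) +
      (U R F z s - z.2.2 s) / 2 * f (pm R s)) + b * ∑ s ∈ S, ((U R F w s + w.2.2 s) / 2 *
      f (pp R s) + (U R F w s - w.2.2 s) / 2 * f (pm R s)) := by
    rw [Finset.mul_sum, Finset.mul_sum, ← Finset.sum_add_distrib]
    exact Finset.sum_congr rfl fun n _ => by ring
  rw [h1, h2]
  ring

lemma sum_W (F : Finset N) (S : Finset A) (z : VV N A) :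
    ∑ n ∈ F, z.1 n + ∑ s ∈ S, ((U R F z s + z.2.2 s) / 2 + (U R F z s - z.2.2 s) / 2) +
      W R F S z = 1 := by
  unfold W
  have : ∀ s, (U R F z s + z.2.2 s) / 2 + (U R F z s - z.2.2 s) / 2 = U R F z s := fun s => by ring
  simp only [this]
  ring

lemma sum_split {M : Type} [AddCommMonoid M] (F : Finset N) (S : Finset A) (a : N → M)
    (b c : A → M) (d : M) : ∑ i : (F ⊕ (S ⊕ S)) ⊕ Unit,
      (Sum.elim (Sum.elim (fun n => a n.1) (Sum.elim (fun s => b s.1) (fun s => c s.1)))
        (fun _ => d) : (F ⊕ (S ⊕ S)) ⊕ Unit → M) i =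
      ∑ n ∈ F, a n + ∑ s ∈ S, (b s + c s) + d := by
  simp only [Fintype.sum_sum_type, Sum.elim_inl, Sum.elim_inr, Finset.univ_unique,
      Finset.sum_singleton]
  rw [Finset.sum_coe_sort F a, Finset.sum_coe_sort S b, Finset.sum_coe_sort S c,
    ← Finset.sum_add_distrib]

lemma app_spec (F : Finset N) (S : Finset A) (hS : Ov R S F) (z : VV N A) (hz : z ∈ XX R) :
    ∃ h : app R F S z ∈ XX R, ∀ f : C(XX R, ℝ), IsConvexFn f →
      f ⟨app R F S z, h⟩ ≤ gF F S f z := by
  have hd : ∀ s, 0 ≤ (U R F z s + z.2.2 s) / 2 ∧ 0 ≤ (U R F z s - z.2.2 s) / 2 := by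
    intro s
    have := abs_le.1 (hz.2.1 F s)
    constructor <;> linarith
  let w : (F ⊕ (S ⊕ S)) ⊕ Unit → ℝ := Sum.elim (Sum.elim (fun n => z.1 n.1)
    (Sum.elim (fun s => (U R F z s.1 + z.2.2 s.1) / 2) (fun s => (U R F z s.1 - z.2.2 s.1) / 2)))
    (fun _ => W R F S z)
  let p : (F ⊕ (S ⊕ S)) ⊕ Unit → XX R := Sum.elim (Sum.elim (fun n => pn R n.1)
    (Sum.elim (fun s => pp R s.1) (fun s => pm R s.1))) (fun _ => p0 R)
  have h0 : ∀ i ∈ (Finset.univ : Finset ((F ⊕ (S ⊕ S)) ⊕ Unit)), 0 ≤ w i := by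
    rintro ((n | (s | s)) | u) _
    · exact hz.1 _
    · exact (hd _).1
    · exact (hd _).2
    · exact hz.2.2 F S hS
  have h1 : ∑ i, w i = 1 :=
    (sum_split F S (fun n => z.1 n) _ _ _).trans (sum_W (R := R) F S z)
  have hy : app R F S z = ∑ i, w i • (p i : VV N A) := by
    have := sum_split F S (fun n => z.1 n • (pn R n : VV N A))
      (fun s => ((U R F z s + z.2.2 s) / 2) • (pp R s : VV N A))
      (fun s => ((U R F z s - z.2.2 s) / 2) • (pm R s : VV N A)) (W R F S z • (p0 R : VV N A))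
    refine Eq.trans ?_ (this.symm.trans ?_)
    · rfl
    · refine Finset.sum_congr rfl fun i _ => ?_
      rcases i with (n | (s | s)) | u <;> rfl
  have hmem : app R F S z ∈ XX R := by
    rw [hy]
    exact convex_XX.sum_mem h0 h1 fun i _ => (p i).2
  refine ⟨hmem, fun f hf => ?_⟩
  have := jensen convex_XX f hf Finset.univ w p h0 h1 ⟨_, hmem⟩ hy
  refine this.trans (le_of_eq ?_)
  have := sum_split F S (fun n => z.1 n * f (pn R n))
      (fun s => ((U R F z s + z.2.2 s) / 2) * f (pp R s))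
      (fun s => ((U R F z s - z.2.2 s) / 2) * f (pm R s)) (W R F S z * f (p0 R))
  refine Eq.trans ?_ this
  refine Finset.sum_congr rfl fun i _ => ?_
  rcases i with (n | (s | s)) | u <;> rfl

end lem

end Pool.Agent.R348.PO
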