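import Pool.Agent.R348.PO.Fin

/-!
# The maximal measure map is not of the first Baire class
-/

set_option linter.style.haveILetI false
set_option linter.unusedSectionVars false

open MeasureTheory Filter Topology

namespace Pool.Agent.R348.PO

open Classical

section neg

variable {N A : Type} {R : N → A → Prop}
  (AD : ∀ s t : A, s ≠ t → {n : N | R n s ∧ R n t}.Finite)

/-- `|d_s|` as a continuous function on `X` -/
noncomputable def DD (R : N → A → Prop) (s : A) : C(XX R, ℝ) :=
  ⟨fun z => |z.1.2.2 s|, ((continuous_apply s).comp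
    ((continuous_snd.comp continuous_snd).comp continuous_subtype_val)).abs⟩

include AD in
lemma sum_DD_le (m : M1 (XX R)) (S : Finset A) : ∑ s ∈ S, m.int (DD R s) ≤ 1 := by
  have h1 : ∑ s ∈ S, m.int (DD R s) = m.lin (∑ s ∈ S, DD R s) := by
    rw [map_sum]
    rfl
  have h2 : m.lin (1 - ∑ s ∈ S, DD R s) ≥ 0 := by
    refine m.int_nonneg _ fun z => ?_
    have e : (1 - ∑ s ∈ S, DD R s) z = 1 - ∑ s ∈ S, |z.1.2.2 s| := by
      rw [ContinuousMap.sub_apply, ContinuousMap.sum_apply]
      rfl
    change (0 : ℝ) ≤ (1 - ∑ s ∈ S, DD R s) z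
    rw [e]
    obtain ⟨F, hF⟩ := exists_ov AD S
    have h3 := z.2.2.2 F S hF
    have h4 : ∑ s ∈ S, |z.1.2.2 s| ≤ ∑ s ∈ S, U R F z.1 s :=
      Finset.sum_le_sum fun s _ => z.2.2.1 F s
    have h5 : 0 ≤ ∑ n ∈ F, z.1.1 n := Finset.sum_nonneg fun n _ => z.2.1 n
    unfold W at h3
    linarith
  rw [map_sub] at h2
  have h3 : m.lin 1 = 1 := m.int_one
  rw [h1]
  linarith

include AD in
lemma countable_DD (m : M1 (XX R)) : {s | m.int (DD R s) ≠ 0}.Countable := by
  have hs : Summable fun s => m.int (DD R s) :=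
    summable_of_sum_le (fun s => m.int_nonneg _ fun z => abs_nonneg _) (sum_DD_le AD m)
  exact hs.countable_support

/-- the midpoint of `e_{s,+}` and `e_{s,-}` -/
noncomputable def mid (N : Type) (s : A) : VV N A :=
  (fun _ => 0, fun t => if t = s then 1 else 0, fun _ => 0)

lemma mid_mem (s : A) : mid N s ∈ XX R := by
  have : mid N s = es N s 0 := by
    refine Prod.ext rfl (Prod.ext rfl ?_)
    funext t
    simp [mid, es]
  rw [this]
  exact es_mem s 0 (by simp)

lemma TT_mid (s : A) : TT (mid_mem (R := R) s) AD (DD R s) = 1 := by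
  rw [TT_apply]
  have hu : ∀ t, uu R (mid N s) t = if t = s then 1 else 0 := by
    intro t
    simp [uu, mid]
  have h1 : ∑' n, (mid N s).1 n * DD R s (pn R n) = 0 := by
    simp [mid]
  have h2 : ∑' t, ((uu R (mid N s) t + (mid N s).2.2 t) / 2 * DD R s (pp R t) +
      (uu R (mid N s) t - (mid N s).2.2 t) / 2 * DD R s (pm R t)) = 1 := by
    rw [tsum_eq_single s]
    · rw [hu]
      simp [mid, DD, pp, pm, es]
      norm_num
    · intro t ht
      rw [hu]
      simp [ht, mid]
  have h3 : DD R s (p0 R) = 0 := by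
    simp [DD, p0]
  rw [h1, h2, h3]
  ring

include AD in
theorem not_InC1 [Countable N] [Uncountable A]
    (hseq : ∀ s : A, ∃ σ : ℕ → N, Function.Injective σ ∧ ∀ m, R (σ m) s)
    (T : XX R → M1 (XX R)) (hT : ∀ x, IsMaximalM (T x) ∧ Represents (T x) x) : ¬ InC1 T := by
  rintro ⟨Tk, hcont, hlim⟩
  -- choice of `s`
  have hcount : (⋃ p : ℕ × N, {s | (Tk p.1 (pn R p.2)).int (DD R s) ≠ 0}).Countable :=
    Set.countable_iUnion fun p => countable_DD AD _
  have hex : ∃ s : A, ∀ (k : ℕ) (n : N), (Tk k (pn R n)).int (DD R s) = 0 := by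
    by_contra hcon
    push Not at hcon
    have : (Set.univ : Set A) ⊆
        ⋃ p : ℕ × N, {s | (Tk p.1 (pn R p.2)).int (DD R s) ≠ 0} := by
      intro s _
      obtain ⟨k, n, h⟩ := hcon s
      exact Set.mem_iUnion.2 ⟨(k, n), h⟩
    exact Set.not_countable_univ (hcount.mono this)
  obtain ⟨s, hs⟩ := hex
  obtain ⟨σ, hσ, hσR⟩ := hseq s
  set p : XX R := ⟨mid N s, mid_mem s⟩ with hp
  -- the sequence `e_{σ m}` converges to `p`
  have hσcof : Tendsto σ atTop cofinite := by
    rw [← Nat.cofinite_eq_atTop]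
    exact hσ.tendsto_cofinite
  have hconv : Tendsto (fun m => pn R (σ m)) atTop (𝓝 p) := by
    rw [tendsto_subtype_rng]
    change Tendsto (fun m => en R (σ m)) atTop (𝓝 (mid N s))
    refine Tendsto.prodMk_nhds ?_ (Tendsto.prodMk_nhds ?_ ?_)
    · rw [tendsto_pi_nhds]
      intro j
      refine tendsto_nhds_of_eventually_eq ?_
      have : ∀ᶠ m in atTop, σ m ∉ ({j} : Set N) :=
        hσcof.eventually (Set.finite_singleton j).eventually_cofinite_notMem
      filter_upwards [this] with m hm
      have : j ≠ σ m := fun h => hm h.symm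
      simp [this]
    · rw [tendsto_pi_nhds]
      intro t
      refine tendsto_nhds_of_eventually_eq ?_
      by_cases hts : t = s
      · refine Filter.Eventually.of_forall fun m => ?_
        simp [hts, hσR m]
      · have : ∀ᶠ m in atTop, σ m ∉ {n : N | R n t ∧ R n s} :=
          hσcof.eventually (AD t s hts).eventually_cofinite_notMem
        filter_upwards [this] with m hm
        have : ¬ R (σ m) t := fun h => hm ⟨h, hσR m⟩
        simp [this, hts]
    · exact tendsto_const_nhds
  have hzero : ∀ k, (Tk k p).int (DD R s) = 0 := by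
    intro k
    have h1 : Tendsto (fun m => (Tk k (pn R (σ m))).int (DD R s)) atTop
        (𝓝 ((Tk k p).int (DD R s))) :=
      (((M1.continuous_int (DD R s)).comp (hcont k)).tendsto p).comp hconv
    have h2 : (fun m => (Tk k (pn R (σ m))).int (DD R s)) = fun _ => 0 :=
      funext fun m => hs k (σ m)
    rw [h2] at h1
    exact (tendsto_nhds_unique tendsto_const_nhds h1).symm
  have h1 : Tendsto (fun k => (Tk k p).int (DD R s)) atTop (𝓝 ((T p).int (DD R s))) :=
    ((M1.continuous_int (DD R s)).tendsto (T p)).comp (hlim p)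
  have h2 : (fun k => (Tk k p).int (DD R s)) = fun _ => 0 := funext hzero
  rw [h2] at h1
  have h3 := tendsto_nhds_unique tendsto_const_nhds h1
  rw [T_unique AD p (T p) (hT p).1 (hT p).2, TT_mid AD s] at h3
  norm_num at h3

end neg

/-! ### the almost disjoint family of branches of the binary tree -/

/-- `n` is a prefix of `s` -/
def Pre (n : List Bool) (s : ℕ → Bool) : Prop := ∀ (i : ℕ) (h : i < n.length), n[i] = s i

lemma pre_AD (s t : ℕ → Bool) (hst : s ≠ t) : {n | Pre n s ∧ Pre n t}.Finite := by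
  obtain ⟨i, hi⟩ := Function.ne_iff.1 hst
  have hlen : ∀ n ∈ {n | Pre n s ∧ Pre n t}, n.length ≤ i := by
    rintro n ⟨h1, h2⟩
    by_contra h
    push Not at h
    exact hi ((h1 i h).symm.trans (h2 i h))
  refine Set.Finite.of_finite_image (f := List.length) ?_ ?_
  · refine (Set.finite_le_nat i).subset ?_
    rintro _ ⟨n, hn, rfl⟩
    exact hlen n hn
  · intro n hn m hm h
    refine List.ext_getElem h fun j h1 h2 => ?_
    rw [hn.1 j h1, hm.1 j h2]

lemma pre_seq (s : ℕ → Bool) : ∃ σ : ℕ → List Bool, Function.Injective σ ∧ ∀ m, Pre (σ m) s := by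
  refine ⟨fun m => List.ofFn fun i : Fin m => s i, fun a b h => ?_, fun m i h => ?_⟩
  · have := congrArg List.length h
    simpa using this
  · simp

instance : Uncountable (ℕ → Bool) := by
  refine ⟨fun h => ?_⟩
  obtain ⟨f, hf⟩ := exists_surjective_nat (ℕ → Bool)
  obtain ⟨k, hk⟩ := hf fun i => !(f i i)
  have := congrFun hk k
  simp at this

end Pool.Agent.R348.PO
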