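import Pool.Agent.R348.PO.Choquet

/-!
# The compact convex set built from an almost disjoint family
-/

set_option linter.style.haveILetI false
set_option linter.unusedSectionVars false

open MeasureTheory Filter Topology

namespace Pool.Agent.R348.PO

open Classical

/-- the ambient space -/
abbrev VV (N A : Type) : Type := (N → ℝ) × (A → ℝ) × (A → ℝ)

section space

variable {N A : Type} (R : N → A → Prop)

/-- `u_s^F = a_s - ∑_{n ∈ A_s ∩ F} c_n` -/
noncomputable def U (F : Finset N) (z : VV N A) (s : A) : ℝ :=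
  z.2.1 s - ∑ n ∈ F, if R n s then z.1 n else 0

/-- `w^{F,S} = 1 - ∑_{n ∈ F} c_n - ∑_{s ∈ S} u_s^F` -/
noncomputable def W (F : Finset N) (S : Finset A) (z : VV N A) : ℝ :=
  1 - ∑ n ∈ F, z.1 n - ∑ s ∈ S, U R F z s

/-- `F` contains the overlaps of `S` -/
def Ov (S : Finset A) (F : Finset N) : Prop :=
  ∀ s ∈ S, ∀ t ∈ S, s ≠ t → ∀ n, R n s → R n t → n ∈ F

/-- The compact convex set. -/
def XX : Set (VV N A) :=
  {z | (∀ n, 0 ≤ z.1 n) ∧ (∀ F s, |z.2.2 s| ≤ U R F z s) ∧ ∀ F S, Ov R S F → 0 ≤ W R F S z}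

/-- the point `e_n` -/
noncomputable def en (n : N) : VV N A :=
  (fun m => if m = n then 1 else 0, fun s => if R n s then 1 else 0, fun _ => 0)

/-- the point `e_{s,+}` (`b = 1`) or `e_{s,-}` (`b = -1`) -/
noncomputable def es (N : Type) (s : A) (b : ℝ) : VV N A :=
  (fun _ => 0, fun t => if t = s then 1 else 0, fun t => if t = s then b else 0)

variable {R}

lemma Ov.mono {S : Finset A} {F G : Finset N} (h : Ov R S F) (hFG : F ⊆ G) : Ov R S G :=
  fun s hs t ht hst n h1 h2 => hFG (h s hs t ht hst n h1 h2)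

lemma ov_singleton (s : A) (F : Finset N) : Ov R {s} F := by
  intro a ha b hb hab
  rw [Finset.mem_singleton] at ha hb
  exact absurd (ha.trans hb.symm) hab

lemma ov_empty (F : Finset N) : Ov R (∅ : Finset A) F := by
  intro a ha
  simp at ha

lemma exists_ov (AD : ∀ s t : A, s ≠ t → {n : N | R n s ∧ R n t}.Finite) (S : Finset A) :
    ∃ F : Finset N, Ov R S F := by
  have hfin : (⋃ s ∈ S, ⋃ t ∈ S, {n : N | s ≠ t ∧ R n s ∧ R n t}).Finite := by
    refine Set.Finite.biUnion S.finite_toSet fun s _ => Set.Finite.biUnion S.finite_toSet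
      fun t _ => ?_
    by_cases h : s = t
    · simp [h]
    · refine (AD s t h).subset fun n hn => hn.2
  refine ⟨hfin.toFinset, fun s hs t ht hst n h1 h2 => ?_⟩
  rw [Set.Finite.mem_toFinset]
  simp only [Set.mem_iUnion]
  exact ⟨s, hs, t, ht, hst, h1, h2⟩

lemma U_add (F : Finset N) (z w : VV N A) (a b : ℝ) (s : A) :
    U R F (a • z + b • w) s = a * U R F z s + b * U R F w s := by
  unfold U
  simp only [Prod.fst_add, Prod.snd_add, Prod.smul_fst, Prod.smul_snd, Pi.add_apply,
    Pi.smul_apply, smul_eq_mul]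
  have : ∀ n, (if R n s then a * z.1 n + b * w.1 n else 0) =
      a * (if R n s then z.1 n else 0) + b * (if R n s then w.1 n else 0) := by
    intro n
    split_ifs <;> ring
  simp only [this, Finset.sum_add_distrib, ← Finset.mul_sum]
  ring

lemma W_add (F : Finset N) (S : Finset A) (z w : VV N A) (a b : ℝ) (hab : a + b = 1) :
    W R F S (a • z + b • w) = a * W R F S z + b * W R F S w := by
  unfold W
  simp only [U_add, Prod.fst_add, Prod.smul_fst, Pi.add_apply, Pi.smul_apply, smul_eq_mul,
    Finset.sum_add_distrib, ← Finset.mul_sum]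
  have : b = 1 - a := by linarith
  subst this
  ring

lemma continuous_U (F : Finset N) (s : A) : Continuous fun z : VV N A => U R F z s := by
  unfold U
  refine Continuous.sub ((continuous_apply s).comp (continuous_fst.comp continuous_snd)) ?_
  refine continuous_finset_sum _ fun n _ => ?_
  split_ifs
  · exact (continuous_apply n).comp continuous_fst
  · exact continuous_const

lemma continuous_W (F : Finset N) (S : Finset A) : Continuous fun z : VV N A => W R F S z := by
  unfold W
  refine Continuous.sub (Continuous.sub continuous_const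
    (continuous_finset_sum _ fun n _ => (continuous_apply n).comp continuous_fst)) ?_
  exact continuous_finset_sum _ fun s _ => continuous_U F s

lemma convex_XX : Convex ℝ (XX R) := by
  intro z hz w hw a b ha hb hab
  refine ⟨fun n => ?_, fun F s => ?_, fun F S h => ?_⟩
  · have h1 := hz.1 n
    have h2 := hw.1 n
    simp only [Prod.fst_add, Prod.smul_fst, Pi.add_apply, Pi.smul_apply, smul_eq_mul]
    positivity
  · rw [U_add]
    simp only [Prod.snd_add, Prod.smul_snd, Pi.add_apply, Pi.smul_apply, smul_eq_mul]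
    have h1 := hz.2.1 F s
    have h2 := hw.2.1 F s
    calc |a * z.2.2 s + b * w.2.2 s| ≤ |a * z.2.2 s| + |b * w.2.2 s| := abs_add_le _ _
      _ = a * |z.2.2 s| + b * |w.2.2 s| := by rw [abs_mul, abs_mul, abs_of_nonneg ha,
          abs_of_nonneg hb]
      _ ≤ _ := by
        have := mul_le_mul_of_nonneg_left h1 ha
        have := mul_le_mul_of_nonneg_left h2 hb
        linarith
  · rw [W_add F S z w a b hab]
    have h1 := hz.2.2 F S h
    have h2 := hw.2.2 F S h
    positivity

lemma isClosed_XX : IsClosed (XX R) := by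
  have : XX R = (⋂ n, {z : VV N A | 0 ≤ z.1 n}) ∩ ((⋂ F, ⋂ s, {z : VV N A | |z.2.2 s| ≤ U R F z s}) ∩
      ⋂ F, ⋂ S, ⋂ (_ : Ov R S F), {z : VV N A | 0 ≤ W R F S z}) := by
    ext z
    simp only [XX, Set.mem_ofPred_eq, Set.mem_inter_iff, Set.mem_iInter]
  rw [this]
  refine IsClosed.inter (isClosed_iInter fun n => ?_) (IsClosed.inter
    (isClosed_iInter fun F => isClosed_iInter fun s => ?_)
    (isClosed_iInter fun F => isClosed_iInter fun S => isClosed_iInter fun _ => ?_))
  · exact isClosed_le continuous_const ((continuous_apply n).comp continuous_fst)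
  · refine isClosed_le ?_ (continuous_U F s)
    exact ((continuous_apply s).comp (continuous_snd.comp continuous_snd)).abs
  · exact isClosed_le continuous_const (continuous_W F S)

/-- simple consequences of the definition -/
lemma XX_a_le (z : VV N A) (hz : z ∈ XX R) (s : A) : |z.2.2 s| ≤ z.2.1 s ∧ z.2.1 s ≤ 1 := by
  have h1 := hz.2.1 ∅ s
  have h2 := hz.2.2 ∅ {s} (ov_singleton s ∅)
  simp only [U, W, Finset.sum_empty, sub_zero, Finset.sum_singleton] at h1 h2
  exact ⟨h1, by linarith⟩

lemma XX_c_le (z : VV N A) (hz : z ∈ XX R) (F : Finset N) : ∑ n ∈ F, z.1 n ≤ 1 := by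
  have h2 := hz.2.2 F ∅ (ov_empty F)
  simp only [W, Finset.sum_empty, sub_zero] at h2
  linarith

lemma isCompact_XX : IsCompact (XX R) := by
  have hbox : IsCompact ((Set.univ.pi fun _ : N => Set.Icc (0 : ℝ) 1) ×ˢ
      ((Set.univ.pi fun _ : A => Set.Icc (0 : ℝ) 1) ×ˢ
        (Set.univ.pi fun _ : A => Set.Icc (-1 : ℝ) 1))) :=
    (isCompact_univ_pi fun _ => isCompact_Icc).prod
      ((isCompact_univ_pi fun _ => isCompact_Icc).prod
        (isCompact_univ_pi fun _ => isCompact_Icc))
  refine hbox.of_isClosed_subset isClosed_XX ?_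
  intro z hz
  simp only [Set.mem_prod, Set.mem_univ_pi, Set.mem_Icc]
  refine ⟨fun n => ⟨hz.1 n, ?_⟩, fun s => ⟨?_, (XX_a_le z hz s).2⟩, fun s => ?_⟩
  · simpa using XX_c_le z hz {n}
  · exact (abs_nonneg _).trans (XX_a_le z hz s).1
  · exact abs_le.1 ((XX_a_le z hz s).1.trans (XX_a_le z hz s).2)

lemma zero_mem : (0 : VV N A) ∈ XX R := by
  refine ⟨fun n => le_rfl, fun F s => ?_, fun F S _ => ?_⟩
  · simp [U]
  · simp [W, U]

lemma U_en (F : Finset N) (n : N) (s : A) :
    U R F (en R n) s = if R n s ∧ n ∉ F then 1 else 0 := by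
  unfold U en
  have h : ∀ m, (if R m s then (if m = n then (1 : ℝ) else 0) else 0) =
      if m = n then (if R n s then 1 else 0) else 0 := by
    intro m
    by_cases hm : m = n
    · subst hm
      simp
    · simp [hm]
  simp only [h, Finset.sum_ite_eq']
  by_cases h1 : R n s <;> by_cases h2 : n ∈ F <;> simp [h1, h2]

lemma en_mem (n : N) : en R n ∈ XX R := by
  refine ⟨fun m => ?_, fun F s => ?_, fun F S h => ?_⟩
  · simp only [en]
    split_ifs <;> norm_num
  · rw [U_en]
    simp only [en, abs_zero]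
    split_ifs <;> norm_num
  · unfold W
    simp only [U_en]
    have e1 : ∑ m ∈ F, (en R n).1 m = if n ∈ F then 1 else 0 := by
      simp only [en, Finset.sum_ite_eq']
    rw [e1]
    by_cases hn : n ∈ F
    · simp [hn]
    · simp only [hn, if_false, not_false_eq_true, and_true, sub_zero]
      rw [← Finset.sum_filter, Finset.sum_const, nsmul_eq_mul, mul_one, sub_nonneg]
      have : (S.filter fun s => R n s).card ≤ 1 := by
        rw [Finset.card_le_one]
        intro a ha b hb
        rw [Finset.mem_filter] at ha hb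
        by_contra hab
        exact hn (h a ha.1 b hb.1 hab n ha.2 hb.2)
      exact_mod_cast this

lemma U_es (F : Finset N) (s t : A) (b : ℝ) : U R F (es N s b) t = if t = s then 1 else 0 := by
  simp [U, es]

lemma es_mem (s : A) (b : ℝ) (hb : |b| ≤ 1) : es N s b ∈ XX R := by
  refine ⟨fun m => le_rfl, fun F t => ?_, fun F S _ => ?_⟩
  · rw [U_es]
    simp only [es]
    split_ifs with h
    · exact hb
    · simp
  · unfold W
    simp only [U_es, Finset.sum_ite_eq']
    simp only [es, Finset.sum_const_zero, sub_zero]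
    split_ifs <;> norm_num

/-- The finite convex combination approximating `z`. -/
noncomputable def app (R : N → A → Prop) (F : Finset N) (S : Finset A) (z : VV N A) : VV N A :=
  ∑ n ∈ F, z.1 n • en R n + ∑ s ∈ S, (((U R F z s + z.2.2 s) / 2) • es N s 1 +
    ((U R F z s - z.2.2 s) / 2) • es N s (-1)) + W R F S z • (0 : VV N A)

lemma fst_sum {ι : Type} (t : Finset ι) (f : ι → VV N A) (m : N) :
    (∑ i ∈ t, f i).1 m = ∑ i ∈ t, (f i).1 m := by
  rw [Prod.fst_sum, Finset.sum_apply]

lemma snd_fst_sum {ι : Type} (t : Finset ι) (f : ι → VV N A) (m : A) :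
    (∑ i ∈ t, f i).2.1 m = ∑ i ∈ t, (f i).2.1 m := by
  rw [Prod.snd_sum, Prod.fst_sum, Finset.sum_apply]

lemma snd_snd_sum {ι : Type} (t : Finset ι) (f : ι → VV N A) (m : A) :
    (∑ i ∈ t, f i).2.2 m = ∑ i ∈ t, (f i).2.2 m := by
  rw [Prod.snd_sum, Prod.snd_sum, Finset.sum_apply]

lemma app_c (F : Finset N) (S : Finset A) (z : VV N A) (m : N) (hm : m ∈ F) :
    (app R F S z).1 m = z.1 m := by
  unfold app
  simp only [Prod.fst_add, Pi.add_apply, fst_sum, Prod.smul_fst, Pi.smul_apply, smul_eq_mul]
  simp [en, es, hm]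

lemma app_a (F : Finset N) (S : Finset A) (z : VV N A) (t : A) (ht : t ∈ S) :
    (app R F S z).2.1 t = z.2.1 t := by
  unfold app
  simp only [Prod.fst_add, Prod.snd_add, Pi.add_apply, snd_fst_sum, Prod.smul_fst, Prod.smul_snd,
    Pi.smul_apply, smul_eq_mul]
  have h1 : ∀ s, (U R F z s + z.2.2 s) / 2 * (es N s 1 : VV N A).2.1 t +
      (U R F z s - z.2.2 s) / 2 * (es N s (-1) : VV N A).2.1 t = if t = s then U R F z s else 0 := by
    intro s
    simp only [es]
    split_ifs <;> ring
  simp only [h1, Finset.sum_ite_eq, ht, if_true]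
  simp only [en, U]
  simp

lemma app_d (F : Finset N) (S : Finset A) (z : VV N A) (t : A) (ht : t ∈ S) :
    (app R F S z).2.2 t = z.2.2 t := by
  unfold app
  simp only [Prod.snd_add, Pi.add_apply, snd_snd_sum, Prod.smul_snd,
    Pi.smul_apply, smul_eq_mul]
  have h1 : ∀ s, (U R F z s + z.2.2 s) / 2 * (es N s 1 : VV N A).2.2 t +
      (U R F z s - z.2.2 s) / 2 * (es N s (-1) : VV N A).2.2 t = if t = s then z.2.2 s else 0 := by
    intro s
    simp only [es]
    split_ifs <;> ring
  simp only [h1, Finset.sum_ite_eq, ht, if_true]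
  simp [en]

end space

end Pool.Agent.R348.PO
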